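import Mathlib

namespace Pool.Agent.Results.MP_5b54e3_co.LogSquareClique

open Finset

/-- Property (star) of the problem file: every set of `⌈(log n)^2⌉` vertices of the graph `G`
on `n` vertices contains a clique of size `⌈log n⌉`. -/
def PropStar (n : ℕ) (G : SimpleGraph (Fin n)) : Prop :=
  ∀ M : Finset (Fin n), M.card = ⌈(Real.log n) ^ 2⌉₊ →
    ∃ T : Finset (Fin n), T ⊆ M ∧ G.IsNClique ⌈Real.log n⌉₊ T

/-! ### A greedy form of Turan's bound -/

section greedy

variable {V : Type*} [DecidableEq V]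

/-- ordered pairs `(x, y)` of `M` with `x = y` or `R x y`. -/
def clo (R : V → V → Prop) [DecidableRel R] (M : Finset V) : Finset (V × V) :=
  (M ×ˢ M).filter (fun p => p.1 = p.2 ∨ R p.1 p.2)

theorem greedy (R : V → V → Prop) [DecidableRel R] (hs : ∀ x y, R x y → R y x) :
    ∀ (k : ℕ) (M : Finset V), M.card = k →
      ∃ T ⊆ M, (∀ x ∈ T, ∀ y ∈ T, x ≠ y → ¬ R x y) ∧
        M.card ^ 2 ≤ T.card * (clo R M).card := by
  intro k
  induction k using Nat.strong_induction_on with
  | _ k ih =>
    intro M hM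
    rcases M.eq_empty_or_nonempty with rfl | hne
    · exact ⟨∅, by simp, by simp, by simp⟩
    -- closed neighbourhood
    let N : V → Finset V := fun v => M.filter (fun y => v = y ∨ R v y)
    obtain ⟨v, hvM, hv⟩ := Finset.exists_min_image M (fun v => (N v).card) hne
    have hNv : v ∈ N v := by simp [N, hvM]
    have hNsub : N v ⊆ M := Finset.filter_subset _ _
    set M' := M \ N v with hM'
    have hM'sub : M' ⊆ M := Finset.sdiff_subset
    have hcard : M'.card + (N v).card = M.card := by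
      rw [hM']; exact Finset.card_sdiff_add_card_eq_card hNsub
    have hNpos : 0 < (N v).card := Finset.card_pos.mpr ⟨v, hNv⟩
    have hlt : M'.card < k := by omega
    obtain ⟨T', hT'sub, hT'ind, hT'card⟩ := ih M'.card hlt M' rfl
    -- v is not in M', not adjacent to M'
    have hvT' : v ∉ T' := by
      intro h
      have := hT'sub h
      rw [hM', Finset.mem_sdiff] at this
      exact this.2 hNv
    have hnadj : ∀ y ∈ T', ¬ R v y := by
      intro y hy hR
      have h1 := hT'sub hy
      rw [hM', Finset.mem_sdiff] at h1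
      exact h1.2 (by simp [N, h1.1, hR])
    refine ⟨insert v T', ?_, ?_, ?_⟩
    · intro x hx
      rcases Finset.mem_insert.mp hx with rfl | hx
      · exact hvM
      · exact hM'sub (hT'sub hx)
    · intro x hx y hy hxy
      rcases Finset.mem_insert.mp hx with hxv | hx'
      · rcases Finset.mem_insert.mp hy with hyv | hy'
        · exact absurd (hxv.trans hyv.symm) hxy
        · rw [hxv]; exact hnadj y hy'
      · rcases Finset.mem_insert.mp hy with hyv | hy'
        · intro h; rw [hyv] at h; exact hnadj x hx' (hs _ _ h)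
        · exact hT'ind x hx' y hy' hxy
    · -- counting
      have hclo : (clo R M').card + (N v).card * (N v).card ≤ (clo R M).card := by
        -- disjoint subsets
        let D : Finset (V × V) := (N v).biUnion (fun x => (N x).image (fun y => (x, y)))
        have hDcard : (N v).card * (N v).card ≤ D.card := by
          have : D.card = ∑ x ∈ N v, (N x).card := by
            rw [Finset.card_biUnion]
            · refine Finset.sum_congr rfl (fun x _ => ?_)
              exact Finset.card_image_of_injective _ (fun a b h => by simpa using h)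
            · intro x _ y _ hxy
              rw [Function.onFun, Finset.disjoint_left]
              intro p hp hq
              simp only [Finset.mem_image] at hp hq
              obtain ⟨a, _, rfl⟩ := hp
              obtain ⟨b, _, hb⟩ := hq
              exact hxy (by simpa using (congrArg Prod.fst hb).symm)
          rw [this, ← smul_eq_mul]
          exact Finset.card_nsmul_le_sum _ _ _ (fun x hx => hv x (hNsub hx))
        have hDsub : D ⊆ clo R M := by
          intro p hp
          simp only [D, Finset.mem_biUnion, Finset.mem_image] at hp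
          obtain ⟨x, hx, y, hy, rfl⟩ := hp
          have hy' : y ∈ M ∧ (x = y ∨ R x y) := by simpa [N] using hy
          simp [clo, hNsub hx, hy'.1, hy'.2]
        have hcsub : clo R M' ⊆ clo R M := by
          intro p hp
          simp only [clo, Finset.mem_filter, Finset.mem_product] at hp ⊢
          exact ⟨⟨hM'sub hp.1.1, hM'sub hp.1.2⟩, hp.2⟩
        have hdis : Disjoint (clo R M') D := by
          rw [Finset.disjoint_left]
          intro p hp hq
          simp only [D, Finset.mem_biUnion, Finset.mem_image] at hq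
          obtain ⟨x, hx, y, hy, rfl⟩ := hq
          simp only [clo, Finset.mem_filter, Finset.mem_product, hM', Finset.mem_sdiff] at hp
          exact hp.1.1.2 hx
        calc (clo R M').card + (N v).card * (N v).card ≤ (clo R M').card + D.card := by omega
          _ = (clo R M' ∪ D).card := (Finset.card_union_of_disjoint hdis).symm
          _ ≤ (clo R M).card := Finset.card_le_card (Finset.union_subset hcsub hDsub)
      rw [Finset.card_insert_of_notMem hvT']
      -- m = m' + d, m'^2 ≤ a * c', c' + d^2 ≤ c ⊢ m^2 ≤ (a+1) * c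
      set m' := M'.card
      set d := (N v).card
      set a := T'.card
      set c' := (clo R M').card
      set c := (clo R M).card
      rw [← hcard]
      -- (m'+d)^2 ≤ (a+1)*(c'+d^2)
      have key : (m' + d) ^ 2 ≤ (a + 1) * (c' + d * d) := by
        have h1 : 2 * (m' * d) ≤ a * (d * d) + c' := by
          -- (m' d)^2 ≤ (a d d) c'
          have h2 : (m' * d) ^ 2 ≤ (a * (d * d)) * c' := by
            calc (m' * d) ^ 2 = m' ^ 2 * (d * d) := by ring
              _ ≤ (a * c') * (d * d) := Nat.mul_le_mul_right _ hT'card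
              _ = (a * (d * d)) * c' := by ring
          by_contra hcon
          push Not at hcon
          have h3 := Nat.pow_lt_pow_left hcon (two_ne_zero)
          have h4 : (a * (d * d) + c') ^ 2 < 4 * ((a * (d * d)) * c') := by
            calc _ < (2 * (m' * d)) ^ 2 := h3
              _ = 4 * (m' * d) ^ 2 := by ring
              _ ≤ _ := Nat.mul_le_mul_left _ h2
          generalize a * (d * d) = X at h4
          have h5 : ((X : ℤ) + c') ^ 2 < 4 * (X * c') := by exact_mod_cast h4
          nlinarith [sq_nonneg ((X : ℤ) - c')]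
        nlinarith [hT'card, h1]
      calc (m' + d) ^ 2 ≤ (a + 1) * (c' + d * d) := key
        _ ≤ (a + 1) * c := Nat.mul_le_mul_left _ hclo

end greedy

/-! ### Counting colourings of the pairs -/

section count

variable {ι : Type*} [Fintype ι] [DecidableEq ι]

theorem card_restricted (b : ℕ) (hb : 0 < b) (S : Finset ι) (A : Finset (Fin b)) :
    ((univ.filter (fun f : ι → Fin b => ∀ e ∈ S, f e ∈ A)).card : ℝ)
      = ((A.card : ℝ) / b) ^ S.card * (b : ℝ) ^ Fintype.card ι := by
  have h1 : (univ.filter (fun f : ι → Fin b => ∀ e ∈ S, f e ∈ A))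
      = Fintype.piFinset (fun e => if e ∈ S then A else univ) := by
    ext f
    simp only [mem_filter, mem_univ, true_and, Fintype.mem_piFinset]
    constructor
    · intro h e
      by_cases he : e ∈ S
      · simp [he, h e he]
      · simp [he]
    · intro h e he
      have := h e
      simpa [he] using this
  rw [h1, Fintype.card_piFinset]
  have hb' : (b : ℝ) ≠ 0 := by positivity
  have h2 : ∀ e : ι, (((if e ∈ S then A else univ : Finset (Fin b)).card : ℕ) : ℝ)
      = (if e ∈ S then (A.card : ℝ) / b else 1) * b := by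
    intro e
    by_cases he : e ∈ S
    · simp [he, div_mul_cancel₀ _ hb']
    · simp [he]
  push_cast
  rw [Finset.prod_congr rfl (fun e _ => h2 e), Finset.prod_mul_distrib, Finset.prod_const,
    Finset.card_univ]
  congr 1
  rw [Finset.prod_ite]
  simp [div_pow]

/-- the (unordered) pairs of a vertex set -/
def E {n : ℕ} (M : Finset (Fin n)) : Finset (Sym2 (Fin n)) :=
  M.offDiag.image (Function.uncurry Sym2.mk)

theorem card_E {n : ℕ} (M : Finset (Fin n)) : (E M).card = M.card.choose 2 :=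
  Sym2.card_image_offDiag M

theorem exists_colouring (n b m k q : ℕ) [NeZero b]
    (hlt : ((n.choose m : ℕ) : ℝ) * (((m.choose 2).choose k : ℕ) : ℝ) * (1 / (b : ℝ)) ^ k
      + ((n.choose q : ℕ) : ℝ) * (((b : ℝ) - 1) / b) ^ (q.choose 2) < 1) :
    ∃ f : Sym2 (Fin n) → Fin b,
      (∀ M : Finset (Fin n), M.card = m → ((E M).filter (fun e => f e = 0)).card < k) ∧
      (∀ Q : Finset (Fin n), Q.card = q → ∃ e ∈ E Q, f e = 0) := by
  classical
  have hb : 0 < b := Nat.pos_of_ne_zero (NeZero.ne b)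
  have hbR : (0 : ℝ) < b := by exact_mod_cast hb
  by_contra hcon
  push Not at hcon
  -- the bad events cover everything
  let Ω : Finset (Sym2 (Fin n) → Fin b) := univ
  let B1 : Finset (Sym2 (Fin n) → Fin b) :=
    ((univ : Finset (Fin n)).powersetCard m).biUnion (fun M =>
      ((E M).powersetCard k).biUnion (fun S =>
        univ.filter (fun f : Sym2 (Fin n) → Fin b => ∀ e ∈ S, f e ∈ ({0} : Finset (Fin b)))))
  let B2 : Finset (Sym2 (Fin n) → Fin b) :=
    ((univ : Finset (Fin n)).powersetCard q).biUnion (fun Q =>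
        univ.filter (fun f : Sym2 (Fin n) → Fin b =>
          ∀ e ∈ E Q, f e ∈ ((univ : Finset (Fin b)).erase 0)))
  have hcov : Ω ⊆ B1 ∪ B2 := by
    intro f _
    rw [Finset.mem_union]
    by_cases h1 : ∀ M : Finset (Fin n), M.card = m → ((E M).filter (fun e => f e = 0)).card < k
    · right
      obtain ⟨Q, hQ, hQf⟩ := hcon f h1
      simp only [B2, Finset.mem_biUnion, Finset.mem_powersetCard, Finset.mem_filter,
        Finset.mem_univ, true_and, Finset.mem_erase, and_true]
      exact ⟨Q, ⟨Finset.subset_univ _, hQ⟩, hQf⟩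
    · left
      push Not at h1
      obtain ⟨M, hM, hMk⟩ := h1
      obtain ⟨S, hS, hSk⟩ := Finset.exists_subset_card_eq hMk
      simp only [B1, Finset.mem_biUnion, Finset.mem_powersetCard, Finset.mem_filter,
        Finset.mem_univ, true_and, Finset.mem_singleton]
      refine ⟨M, ⟨Finset.subset_univ _, hM⟩, S, ⟨?_, hSk⟩, ?_⟩
      · exact hS.trans (Finset.filter_subset _ _)
      · intro e he
        exact (Finset.mem_filter.mp (hS he)).2
  set P : ℝ := (b : ℝ) ^ Fintype.card (Sym2 (Fin n)) with hP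
  have hPpos : 0 < P := by positivity
  have hΩ : (Ω.card : ℝ) = P := by
    simp [Ω, hP]
  have hB1 : (B1.card : ℝ) ≤ ((n.choose m : ℕ) : ℝ) * (((m.choose 2).choose k : ℕ) : ℝ)
      * (1 / (b : ℝ)) ^ k * P := by
    have h1 : (B1.card : ℝ) ≤ ∑ M ∈ (univ : Finset (Fin n)).powersetCard m,
        ((((E M).powersetCard k).biUnion (fun S =>
        univ.filter (fun f : Sym2 (Fin n) → Fin b =>
          ∀ e ∈ S, f e ∈ ({0} : Finset (Fin b))))).card : ℝ) := by
      exact_mod_cast Finset.card_biUnion_le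
    refine h1.trans ?_
    have h2 : ∀ M ∈ (univ : Finset (Fin n)).powersetCard m,
        ((((E M).powersetCard k).biUnion (fun S =>
        univ.filter (fun f : Sym2 (Fin n) → Fin b =>
          ∀ e ∈ S, f e ∈ ({0} : Finset (Fin b))))).card : ℝ)
        ≤ (((m.choose 2).choose k : ℕ) : ℝ) * ((1 / (b : ℝ)) ^ k * P) := by
      intro M hM
      rw [Finset.mem_powersetCard] at hM
      have h3 : ((((E M).powersetCard k).biUnion (fun S =>
        univ.filter (fun f : Sym2 (Fin n) → Fin b =>
          ∀ e ∈ S, f e ∈ ({0} : Finset (Fin b))))).card : ℝ)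
          ≤ ∑ S ∈ (E M).powersetCard k, ((univ.filter (fun f : Sym2 (Fin n) → Fin b =>
          ∀ e ∈ S, f e ∈ ({0} : Finset (Fin b)))).card : ℝ) := by
        exact_mod_cast Finset.card_biUnion_le
      refine h3.trans ?_
      have h4 : ∀ S ∈ (E M).powersetCard k, ((univ.filter (fun f : Sym2 (Fin n) → Fin b =>
          ∀ e ∈ S, f e ∈ ({0} : Finset (Fin b)))).card : ℝ) = (1 / (b : ℝ)) ^ k * P := by
        intro S hS
        rw [Finset.mem_powersetCard] at hS
        rw [card_restricted b hb, hS.2]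
        simp [hP]
      rw [Finset.sum_congr rfl h4, Finset.sum_const, Finset.card_powersetCard, card_E, hM.2,
        nsmul_eq_mul]
    refine (Finset.sum_le_sum h2).trans ?_
    rw [Finset.sum_const, Finset.card_powersetCard, Finset.card_univ, Fintype.card_fin,
      nsmul_eq_mul]
    apply le_of_eq
    ring
  have hB2 : (B2.card : ℝ) ≤ ((n.choose q : ℕ) : ℝ) * (((b : ℝ) - 1) / b) ^ (q.choose 2) * P := by
    have h1 : (B2.card : ℝ) ≤ ∑ Q ∈ (univ : Finset (Fin n)).powersetCard q,
        ((univ.filter (fun f : Sym2 (Fin n) → Fin b =>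
          ∀ e ∈ E Q, f e ∈ ((univ : Finset (Fin b)).erase 0))).card : ℝ) := by
      exact_mod_cast Finset.card_biUnion_le
    refine h1.trans ?_
    have h4 : ∀ Q ∈ (univ : Finset (Fin n)).powersetCard q,
        ((univ.filter (fun f : Sym2 (Fin n) → Fin b =>
          ∀ e ∈ E Q, f e ∈ ((univ : Finset (Fin b)).erase 0))).card : ℝ)
          = (((b : ℝ) - 1) / b) ^ (q.choose 2) * P := by
      intro Q hQ
      rw [Finset.mem_powersetCard] at hQ
      rw [card_restricted b hb, card_E, hQ.2, Finset.card_erase_of_mem (Finset.mem_univ _),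
        Finset.card_univ, Fintype.card_fin, Nat.cast_sub hb]
      simp [hP]
    rw [Finset.sum_congr rfl h4, Finset.sum_const, Finset.card_powersetCard, Finset.card_univ,
      Fintype.card_fin, nsmul_eq_mul]
    apply le_of_eq
    ring
  have hle : (Ω.card : ℝ) ≤ B1.card + B2.card := by
    exact_mod_cast (Finset.card_le_card hcov).trans (Finset.card_union_le _ _)
  rw [hΩ] at hle
  have : P ≤ (((n.choose m : ℕ) : ℝ) * (((m.choose 2).choose k : ℕ) : ℝ) * (1 / (b : ℝ)) ^ k
      + ((n.choose q : ℕ) : ℝ) * (((b : ℝ) - 1) / b) ^ (q.choose 2)) * P := by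
    rw [add_mul]; linarith
  have h2 : P < 1 * P := lt_of_le_of_lt this (mul_lt_mul_of_pos_right hlt hPpos)
  linarith

end count

/-! ### Numerical estimates -/

theorem estimate_one (t : ℝ) (ht : 8 ≤ t) (n m k b : ℕ) (hn : 0 < n) (htn : t = Real.log n)
    (hm : m = ⌈t ^ 2⌉₊) (hk : k = ⌈(m : ℝ) * (t - 1) / 2⌉₊) (hb : b = ⌈64 * t⌉₊) :
    ((n.choose m : ℕ) : ℝ) * (((m.choose 2).choose k : ℕ) : ℝ) * (1 / (b : ℝ)) ^ k
      ≤ Real.exp (-2) := by
  have hnR : (0 : ℝ) < n := by exact_mod_cast hn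
  have hm1 : t ^ 2 ≤ m := by rw [hm]; exact Nat.le_ceil _
  have hm2 : (m : ℝ) < t ^ 2 + 1 := by rw [hm]; exact Nat.ceil_lt_add_one (by positivity)
  have hmpos : (0 : ℝ) < m := by nlinarith
  have hk1 : (m : ℝ) * (t - 1) / 2 ≤ k := by rw [hk]; exact Nat.le_ceil _
  have hkpos : (0 : ℝ) < k := by
    have : 0 < (m : ℝ) * (t - 1) / 2 := by
      apply div_pos (mul_pos hmpos (by linarith)) (by norm_num)
    linarith
  have hb1 : 64 * t ≤ b := by rw [hb]; exact Nat.le_ceil _
  have hbpos : (0 : ℝ) < b := by linarith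
  have h1 : ((n.choose m : ℕ) : ℝ) ≤ Real.exp (t * m) := by
    calc ((n.choose m : ℕ) : ℝ) ≤ ((n ^ m : ℕ) : ℝ) := by exact_mod_cast Nat.choose_le_pow n m
      _ = (n : ℝ) ^ m := by push_cast; rfl
      _ = (Real.exp t) ^ m := by rw [htn, Real.exp_log hnR]
      _ = Real.exp (t * m) := by rw [← Real.exp_nat_mul, mul_comm]
  have h2 : (((m.choose 2 : ℕ)) : ℝ) ≤ (m : ℝ) ^ 2 / 2 := by
    rw [Nat.cast_choose_two]
    nlinarith
  have h3 : (((m.choose 2).choose k : ℕ) : ℝ) * (1 / (b : ℝ)) ^ k ≤ Real.exp (-3) ^ k := by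
    have h4 : (((m.choose 2).choose k : ℕ) : ℝ) ≤ ((m.choose 2 : ℕ) : ℝ) ^ k / (k.factorial : ℝ) :=
      Nat.choose_le_pow_div k (m.choose 2)
    have h5 : (k : ℝ) ^ k / (k.factorial : ℝ) ≤ Real.exp k :=
      Real.pow_div_factorial_le_exp (k : ℝ) hkpos.le k
    have hfac : (0 : ℝ) < (k.factorial : ℝ) := by exact_mod_cast Nat.factorial_pos k
    have hkk : (0 : ℝ) < (k : ℝ) ^ k := by positivity
    have h6 : 1 / (k.factorial : ℝ) ≤ (Real.exp 1 / k) ^ k := by
      rw [div_pow, ← Real.exp_nat_mul, mul_one, le_div_iff₀ hkk]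
      calc 1 / (k.factorial : ℝ) * (k : ℝ) ^ k = (k : ℝ) ^ k / (k.factorial : ℝ) := by ring
        _ ≤ _ := h5
    calc (((m.choose 2).choose k : ℕ) : ℝ) * (1 / (b : ℝ)) ^ k
        ≤ (((m.choose 2 : ℕ) : ℝ) ^ k / (k.factorial : ℝ)) * (1 / (b : ℝ)) ^ k := by
          apply mul_le_mul_of_nonneg_right h4 (by positivity)
      _ = ((m.choose 2 : ℕ) : ℝ) ^ k * (1 / (b : ℝ)) ^ k * (1 / (k.factorial : ℝ)) := by ring
      _ ≤ ((m.choose 2 : ℕ) : ℝ) ^ k * (1 / (b : ℝ)) ^ k * (Real.exp 1 / k) ^ k := by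
          apply mul_le_mul_of_nonneg_left h6 (by positivity)
      _ = (((m.choose 2 : ℕ) : ℝ) * (1 / (b : ℝ)) * (Real.exp 1 / k)) ^ k := by
          rw [mul_pow, mul_pow]
      _ ≤ Real.exp (-3) ^ k := by
          apply pow_le_pow_left₀ (by positivity)
          -- C(m,2) * e / (b k) ≤ e^-3
          have h7 : ((m.choose 2 : ℕ) : ℝ) * Real.exp 4 ≤ b * k := by
            have he4 : Real.exp 4 ≤ 55 := by
              have h8 : Real.exp 4 = Real.exp 1 ^ 4 := by rw [← Real.exp_nat_mul]; norm_num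
              rw [h8]
              have h9 := Real.exp_one_lt_d9
              have h10 : Real.exp 1 ^ 4 ≤ (2.7182818286 : ℝ) ^ 4 :=
                pow_le_pow_left₀ (Real.exp_pos 1).le h9.le 4
              refine h10.trans ?_
              norm_num
            have h11 : ((m.choose 2 : ℕ) : ℝ) * Real.exp 4 ≤ (m : ℝ) ^ 2 / 2 * 55 :=
              mul_le_mul h2 he4 (Real.exp_pos 4).le (by positivity)
            have h12 : 64 * t * ((m : ℝ) * (t - 1) / 2) ≤ b * k := by
              apply mul_le_mul hb1 hk1 _ hbpos.le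
              have : 0 ≤ (m : ℝ) * (t - 1) := mul_nonneg hmpos.le (by linarith)
              linarith
            have h13 : (m : ℝ) ^ 2 / 2 * 55 ≤ 64 * t * ((m : ℝ) * (t - 1) / 2) := by
              have h14 : (m : ℝ) * 55 ≤ 64 * t * (t - 1) := by
                nlinarith
              nlinarith
            linarith
          have hbk : (0 : ℝ) < b * k := mul_pos hbpos hkpos
          have h15 : ((m.choose 2 : ℕ) : ℝ) * (1 / (b : ℝ)) * (Real.exp 1 / k)
              = ((m.choose 2 : ℕ) : ℝ) * Real.exp 1 / (b * k) := by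
            field_simp
          rw [h15, div_le_iff₀ hbk]
          have h16 : Real.exp 1 = Real.exp 4 * Real.exp (-3) := by
            rw [← Real.exp_add]; norm_num
          rw [h16, ← mul_assoc]
          calc ((m.choose 2 : ℕ) : ℝ) * Real.exp 4 * Real.exp (-3)
              ≤ (b * k) * Real.exp (-3) := mul_le_mul_of_nonneg_right h7 (Real.exp_pos _).le
            _ = Real.exp (-3) * (b * k) := by ring
  calc ((n.choose m : ℕ) : ℝ) * (((m.choose 2).choose k : ℕ) : ℝ) * (1 / (b : ℝ)) ^ k
      = ((n.choose m : ℕ) : ℝ) * ((((m.choose 2).choose k : ℕ) : ℝ) * (1 / (b : ℝ)) ^ k) := by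
        ring
    _ ≤ Real.exp (t * m) * Real.exp (-3) ^ k :=
        mul_le_mul h1 h3 (by positivity) (Real.exp_pos _).le
    _ = Real.exp (t * m - 3 * k) := by
        rw [← Real.exp_nat_mul, ← Real.exp_add]; congr 1; ring
    _ ≤ Real.exp (-2) := by
        apply Real.exp_le_exp.mpr
        nlinarith

theorem estimate_two (t : ℝ) (ht : 8 ≤ t) (n q b : ℕ) (hn : 0 < n) (htn : t = Real.log n)
    (hq : q = ⌈150 * t ^ 2⌉₊ + 1) (hb : b = ⌈64 * t⌉₊) :
    ((n.choose q : ℕ) : ℝ) * (((b : ℝ) - 1) / b) ^ (q.choose 2) ≤ Real.exp (-1) := by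
  have hnR : (0 : ℝ) < n := by exact_mod_cast hn
  have hb1 : 64 * t ≤ b := by rw [hb]; exact Nat.le_ceil _
  have hb2 : (b : ℝ) < 64 * t + 1 := by rw [hb]; exact Nat.ceil_lt_add_one (by positivity)
  have hbpos : (0 : ℝ) < b := by linarith
  have hq1 : 150 * t ^ 2 ≤ (q : ℝ) - 1 := by
    rw [hq]; push_cast
    have := Nat.le_ceil (150 * t ^ 2)
    linarith
  have hqpos : (1 : ℝ) ≤ q := by nlinarith
  have h1 : ((n.choose q : ℕ) : ℝ) ≤ Real.exp (t * q) := by
    calc ((n.choose q : ℕ) : ℝ) ≤ ((n ^ q : ℕ) : ℝ) := by exact_mod_cast Nat.choose_le_pow n q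
      _ = (n : ℝ) ^ q := by push_cast; rfl
      _ = (Real.exp t) ^ q := by rw [htn, Real.exp_log hnR]
      _ = Real.exp (t * q) := by rw [← Real.exp_nat_mul, mul_comm]
  have h2 : (((b : ℝ) - 1) / b) ^ (q.choose 2) ≤ Real.exp (-((q.choose 2 : ℕ) : ℝ) / b) := by
    have h3 : ((b : ℝ) - 1) / b ≤ Real.exp (-(1 / b)) := by
      have := Real.add_one_le_exp (-(1 / (b : ℝ)))
      refine le_trans (le_of_eq ?_) this
      field_simp
      ring
    calc (((b : ℝ) - 1) / b) ^ (q.choose 2) ≤ Real.exp (-(1 / b)) ^ (q.choose 2) := by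
          apply pow_le_pow_left₀ _ h3
          apply div_nonneg _ hbpos.le
          linarith
      _ = Real.exp (-((q.choose 2 : ℕ) : ℝ) / b) := by
          rw [← Real.exp_nat_mul]; congr 1; ring
  calc ((n.choose q : ℕ) : ℝ) * (((b : ℝ) - 1) / b) ^ (q.choose 2)
      ≤ Real.exp (t * q) * Real.exp (-((q.choose 2 : ℕ) : ℝ) / b) := by
        apply mul_le_mul h1 h2 _ (Real.exp_pos _).le
        apply pow_nonneg
        apply div_nonneg _ hbpos.le
        linarith
    _ = Real.exp (t * q - ((q.choose 2 : ℕ) : ℝ) / b) := by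
        rw [← Real.exp_add]; congr 1; ring
    _ ≤ Real.exp (-1) := by
        apply Real.exp_le_exp.mpr
        rw [Nat.cast_choose_two]
        have h5 : (q : ℝ) * (t + 1) ≤ (q : ℝ) * (q - 1) / 2 / b := by
          rw [le_div_iff₀ hbpos, le_div_iff₀ (by norm_num)]
          have h6 : (t + 1) * b * 2 ≤ (q : ℝ) - 1 := by nlinarith
          nlinarith
        nlinarith

theorem clo_card_le {n b : ℕ} [NeZero b] (f : Sym2 (Fin n) → Fin b) (M : Finset (Fin n)) :
    (clo (fun x y : Fin n => x ≠ y ∧ f s(x, y) = 0) M).card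
      ≤ M.card + 2 * ((E M).filter (fun e => f e = 0)).card := by
  classical
  -- split into the diagonal and the off diagonal part
  have h1 : clo (fun x y : Fin n => x ≠ y ∧ f s(x, y) = 0) M
      ⊆ M.image (fun x => (x, x)) ∪ M.offDiag.filter (fun p => f s(p.1, p.2) = 0) := by
    intro p hp
    simp only [clo, Finset.mem_filter, Finset.mem_product] at hp
    rw [Finset.mem_union]
    by_cases h : p.1 = p.2
    · left
      rw [Finset.mem_image]
      exact ⟨p.1, hp.1.1, by ext <;> simp [h]⟩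
    · right
      rw [Finset.mem_filter, Finset.mem_offDiag]
      rcases hp.2 with h' | h'
      · exact absurd h' h
      · exact ⟨⟨hp.1.1, hp.1.2, h⟩, h'.2⟩
  have h2 : (M.offDiag.filter (fun p => f s(p.1, p.2) = 0)).card
      ≤ 2 * ((E M).filter (fun e => f e = 0)).card := by
    have h3 : (M.offDiag.filter (fun p => f s(p.1, p.2) = 0)).image (fun p => s(p.1, p.2))
        ⊆ (E M).filter (fun e => f e = 0) := by
      intro e he
      rw [Finset.mem_image] at he
      obtain ⟨p, hp, rfl⟩ := he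
      rw [Finset.mem_filter] at hp ⊢
      refine ⟨?_, hp.2⟩
      rw [E, Finset.mem_image]
      exact ⟨p, hp.1, rfl⟩
    refine (Finset.card_le_mul_card_image (f := fun p : Fin n × Fin n => s(p.1, p.2)) _ 2
      ?_).trans (Nat.mul_le_mul_left 2 (Finset.card_le_card h3))
    intro e he
    rw [Finset.mem_image] at he
    obtain ⟨p, _, rfl⟩ := he
    have h4 : (filter (fun a : Fin n × Fin n => s(a.1, a.2) = s(p.1, p.2))
        (M.offDiag.filter (fun p => f s(p.1, p.2) = 0))) ⊆ {p, p.swap} := by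
      intro a ha
      rw [Finset.mem_filter] at ha
      have := ha.2
      rw [Sym2.eq_iff] at this
      rw [Finset.mem_insert, Finset.mem_singleton]
      rcases this with h | h
      · left; ext <;> simp [h.1, h.2]
      · right; ext <;> simp [h.1, h.2]
    exact (Finset.card_le_card h4).trans (Finset.card_le_two)
  calc _ ≤ (M.image (fun x => (x, x)) ∪ M.offDiag.filter (fun p => f s(p.1, p.2) = 0)).card :=
        Finset.card_le_card h1
    _ ≤ (M.image (fun x => (x, x))).card
        + (M.offDiag.filter (fun p => f s(p.1, p.2) = 0)).card := Finset.card_union_le _ _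
    _ ≤ M.card + 2 * ((E M).filter (fun e => f e = 0)).card :=
        Nat.add_le_add Finset.card_image_le h2

theorem exp_sum_lt : Real.exp (-2) + Real.exp (-1) < 1 := by
  have h1 : Real.exp (-1) < 1 / 2 := by
    rw [Real.exp_neg, inv_eq_one_div]
    apply one_div_lt_one_div_of_lt (by norm_num)
    have := Real.exp_one_gt_d9
    linarith
  have h2 : Real.exp (-2) ≤ Real.exp (-1) := Real.exp_le_exp.mpr (by norm_num)
  linarith

/-- the main construction: all `n` with `log n ≥ 8`. -/
theorem main (n : ℕ) (hn : 0 < n) (ht : 8 ≤ Real.log n) :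
    ∃ G : SimpleGraph (Fin n), PropStar n G ∧ (G.cliqueNum : ℝ) ≤ 151 * (Real.log n) ^ 2 := by
  classical
  obtain ⟨t, htn⟩ : ∃ t, t = Real.log n := ⟨_, rfl⟩
  rw [← htn] at ht
  obtain ⟨m, hm⟩ : ∃ m, m = ⌈t ^ 2⌉₊ := ⟨_, rfl⟩
  obtain ⟨k, hk⟩ : ∃ k, k = ⌈(m : ℝ) * (t - 1) / 2⌉₊ := ⟨_, rfl⟩
  obtain ⟨b, hb⟩ : ∃ b, b = ⌈64 * t⌉₊ := ⟨_, rfl⟩
  obtain ⟨q, hq⟩ : ∃ q, q = ⌈150 * t ^ 2⌉₊ + 1 := ⟨_, rfl⟩
  have hbpos : 0 < b := by
    rw [hb]; exact Nat.ceil_pos.mpr (by linarith)
  have : NeZero b := ⟨hbpos.ne'⟩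
  have hlt : ((n.choose m : ℕ) : ℝ) * (((m.choose 2).choose k : ℕ) : ℝ) * (1 / (b : ℝ)) ^ k
      + ((n.choose q : ℕ) : ℝ) * (((b : ℝ) - 1) / b) ^ (q.choose 2) < 1 := by
    have h1 := estimate_one t ht n m k b hn htn hm hk hb
    have h2 := estimate_two t ht n q b hn htn hq hb
    have h3 := exp_sum_lt
    linarith
  obtain ⟨f, hf1, hf2⟩ := exists_colouring n b m k q hlt
  let G : SimpleGraph (Fin n) :=
    { Adj := fun x y => x ≠ y ∧ f s(x, y) ≠ 0
      symm := ⟨fun x y h => ⟨h.1.symm, by rw [Sym2.eq_swap]; exact h.2⟩⟩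
      loopless := ⟨fun x h => h.1 rfl⟩ }
  refine ⟨G, ?_, ?_⟩
  · -- property star
    intro M hM
    rw [← htn] at hM ⊢
    rw [← hm] at hM
    obtain ⟨T, hTM, hTind, hTcard⟩ := greedy (fun x y : Fin n => x ≠ y ∧ f s(x, y) = 0)
      (fun x y h => ⟨h.1.symm, by rw [Sym2.eq_swap]; exact h.2⟩) M.card M rfl
    have hclo := clo_card_le f M
    have he := hf1 M hM
    rw [hM] at hclo hTcard
    set e := ((E M).filter (fun e => f e = 0)).card with he_def
    set c := (clo (fun x y : Fin n => x ≠ y ∧ f s(x, y) = 0) M).card with hc_def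
    have hm1 : t ^ 2 ≤ m := by rw [hm]; exact Nat.le_ceil _
    have hmpos : (0 : ℝ) < m := by nlinarith
    have he2 : (e : ℝ) < (m : ℝ) * (t - 1) / 2 := by
      rw [hk] at he
      exact Nat.lt_ceil.mp he
    have hc2 : (c : ℝ) ≤ m + 2 * e := by exact_mod_cast hclo
    have hc3 : (c : ℝ) < m * t := by nlinarith
    have hT : ⌈t⌉₊ ≤ T.card := by
      by_contra hcon
      push Not at hcon
      have h1 : (T.card : ℝ) < t := Nat.lt_ceil.mp hcon
      have h2 : ((m : ℝ)) ^ 2 ≤ T.card * c := by exact_mod_cast hTcard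
      have h3 : (T.card : ℝ) * c ≤ t * c := mul_le_mul_of_nonneg_right h1.le (Nat.cast_nonneg _)
      have h4 : t * c < t * (m * t) := mul_lt_mul_of_pos_left hc3 (by linarith)
      nlinarith
    obtain ⟨T', hT'T, hT'card⟩ := Finset.exists_subset_card_eq hT
    refine ⟨T', hT'T.trans hTM, ?_, hT'card⟩
    intro x hx y hy hxy
    refine ⟨hxy, fun h0 => ?_⟩
    exact hTind x (hT'T hx) y (hT'T hy) hxy ⟨hxy, h0⟩
  · -- the clique number
    have hcl : G.cliqueNum < q := by
      by_contra hcon
      push Not at hcon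
      obtain ⟨Q0, hQ0⟩ := G.exists_isNClique_cliqueNum
      rw [← hQ0.card_eq] at hcon
      obtain ⟨Q, hQQ0, hQcard⟩ := Finset.exists_subset_card_eq hcon
      obtain ⟨e, heQ, hfe⟩ := hf2 Q hQcard
      rw [E, Finset.mem_image] at heQ
      obtain ⟨p, hp, rfl⟩ := heQ
      rw [Finset.mem_offDiag] at hp
      have hadj : G.Adj p.1 p.2 := hQ0.isClique (hQQ0 hp.1) (hQQ0 hp.2.1) hp.2.2
      exact hadj.2 hfe
    have h1 : G.cliqueNum ≤ ⌈150 * t ^ 2⌉₊ := by omega
    have h2 : (G.cliqueNum : ℝ) ≤ (⌈150 * t ^ 2⌉₊ : ℝ) := by exact_mod_cast h1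
    have h3 : (⌈150 * t ^ 2⌉₊ : ℝ) < 150 * t ^ 2 + 1 := Nat.ceil_lt_add_one (by positivity)
    rw [← htn]
    nlinarith

/-- **Main theorem.** For every `ε < 1/2` and every sufficiently large `n` there is a graph on
`n` vertices with property (star), whose clique number is at most `151 (log n)^2`, and hence at
most `n ^ (1/2 - ε)`. -/
theorem result : ∀ ε : ℝ, ε < 1 / 2 → ∃ n₀ : ℕ, ∀ n : ℕ, n₀ ≤ n →
    ∃ G : SimpleGraph (Fin n), PropStar n G ∧
      (G.cliqueNum : ℝ) ≤ 151 * (Real.log n) ^ 2 ∧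
      (G.cliqueNum : ℝ) ≤ (n : ℝ) ^ (1 / 2 - ε) := by
  intro ε hε
  have hr : 0 < (1 / 2 - ε) / 2 := by linarith
  have h1 := (isLittleO_log_rpow_atTop hr).bound (show (0 : ℝ) < 1 / 13 by norm_num)
  have h2 := Real.tendsto_log_atTop.eventually_ge_atTop 8
  have h3 := (h1.and h2)
  have h4 := tendsto_natCast_atTop_atTop (R := ℝ) |>.eventually h3
  obtain ⟨N, hN⟩ := Filter.eventually_atTop.mp h4
  refine ⟨max N 1, fun n hn => ?_⟩
  obtain ⟨ha, hb⟩ := hN n (le_trans (le_max_left _ _) hn)
  have hnpos : 0 < n := lt_of_lt_of_le Nat.one_pos (le_trans (le_max_right _ _) hn)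
  obtain ⟨G, hG1, hG2⟩ := main n hnpos hb
  refine ⟨G, hG1, hG2, hG2.trans ?_⟩
  have hnR : (0 : ℝ) < n := by exact_mod_cast hnpos
  rw [Real.norm_of_nonneg (by linarith), Real.norm_of_nonneg (Real.rpow_nonneg hnR.le _)] at ha
  have h5 : (n : ℝ) ^ (1 / 2 - ε) = ((n : ℝ) ^ ((1 / 2 - ε) / 2)) ^ 2 := by
    rw [← Real.rpow_natCast, ← Real.rpow_mul hnR.le]
    congr 1
    push_cast
    ring
  rw [h5]
  have h6 : 0 ≤ (n : ℝ) ^ ((1 / 2 - ε) / 2) := Real.rpow_nonneg hnR.le _
  nlinarith

end Pool.Agent.Results.MP_5b54e3_co.LogSquareClique
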