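import Mathlib

set_option autoImplicit false

namespace Pool.Agent.Results.MP_104382_al.SquareNotFParadoxical

open MeasureTheory

/-- `E` is `G`-paradoxical for the linear action `v ↦ M v` of a subgroup `G` of `SL₂(ℝ)` on the
plane: there are pairwise disjoint `A₁, …, Aₙ, B₁, …, Bₘ ⊆ E` (`n, m ≥ 1`) and elements `gᵢ, hⱼ`
of `G` with `E = ⋃ gᵢ Aᵢ = ⋃ hⱼ Bⱼ`. -/
def IsParadoxical (G : Subgroup (Matrix.SpecialLinearGroup (Fin 2) ℝ))
    (E : Set (Fin 2 → ℝ)) : Prop :=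
  ∃ (n m : ℕ) (A : Fin n → Set (Fin 2 → ℝ)) (B : Fin m → Set (Fin 2 → ℝ))
    (g : Fin n → Matrix.SpecialLinearGroup (Fin 2) ℝ)
    (h : Fin m → Matrix.SpecialLinearGroup (Fin 2) ℝ),
    0 < n ∧ 0 < m ∧
    (∀ i, g i ∈ G) ∧ (∀ j, h j ∈ G) ∧
    (∀ i, A i ⊆ E) ∧ (∀ j, B j ⊆ E) ∧
    Pairwise (fun i i' => Disjoint (A i) (A i')) ∧
    Pairwise (fun j j' => Disjoint (B j) (B j')) ∧
    (∀ i j, Disjoint (A i) (B j)) ∧
    (⋃ i, (fun v => Matrix.mulVec ((g i : Matrix (Fin 2) (Fin 2) ℝ)) v) '' A i) = E ∧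
    (⋃ j, (fun v => Matrix.mulVec ((h j : Matrix (Fin 2) (Fin 2) ℝ)) v) '' B j) = E

/-- The matrix `a = (1 2; 0 1)`. -/
def a : Matrix.SpecialLinearGroup (Fin 2) ℝ := ⟨!![1, 2; 0, 1], by simp [Matrix.det_fin_two_of]⟩

/-- The matrix `b = (1 0; 2 1)`, the transpose of `a`. -/
def b : Matrix.SpecialLinearGroup (Fin 2) ℝ := ⟨!![1, 0; 2, 1], by simp [Matrix.det_fin_two_of]⟩

/-- The group `F` generated by `a` and `b`. -/
def F : Subgroup (Matrix.SpecialLinearGroup (Fin 2) ℝ) := Subgroup.closure {a, b}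

/-- The open unit square `Q`. -/
def Q : Set (Fin 2 → ℝ) := {v | ∀ k, 0 < v k ∧ v k < 1}

/-- integer matrices that are the identity modulo two -/
def Cong (g : Matrix.SpecialLinearGroup (Fin 2) ℝ) (p q r s : ℤ) : Prop :=
  Odd p ∧ Even q ∧ Even r ∧ Odd s ∧ p * s - q * r = 1 ∧
    (g : Matrix (Fin 2) (Fin 2) ℝ) = !![(p : ℝ), (q : ℝ); (r : ℝ), (s : ℝ)]

lemma cong_one : Cong 1 1 0 0 1 := by
  refine ⟨odd_one, Even.zero, Even.zero, odd_one, by norm_num, ?_⟩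
  ext i j
  fin_cases i <;> fin_cases j <;> simp

lemma cong_mul {g g' : Matrix.SpecialLinearGroup (Fin 2) ℝ} {p q r s p' q' r' s' : ℤ}
    (h : Cong g p q r s) (h' : Cong g' p' q' r' s') :
    Cong (g * g') (p * p' + q * r') (p * q' + q * s') (r * p' + s * r') (r * q' + s * s') := by
  obtain ⟨hp, hq, hr, hs, hd, he⟩ := h
  obtain ⟨hp', hq', hr', hs', hd', he'⟩ := h'
  refine ⟨?_, ?_, ?_, ?_, ?_, ?_⟩
  · exact (hp.mul hp').add_even (hq.mul_right _)
  · exact (hq'.mul_left _).add (hq.mul_right _)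
  · exact (hr.mul_right _).add (hr'.mul_left _)
  · exact (hr.mul_right _).add_odd (hs.mul hs')
  · linear_combination hd * (p' * s' - q' * r') + hd'
  · rw [Matrix.SpecialLinearGroup.coe_mul, he, he']
    ext i j
    fin_cases i <;> fin_cases j <;> simp [Matrix.mul_apply, Fin.sum_univ_two]

lemma cong_inv {g : Matrix.SpecialLinearGroup (Fin 2) ℝ} {p q r s : ℤ}
    (h : Cong g p q r s) : Cong g⁻¹ s (-q) (-r) p := by
  obtain ⟨hp, hq, hr, hs, hd, he⟩ := h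
  refine ⟨hs, hq.neg, hr.neg, hp, by linear_combination hd, ?_⟩
  rw [Matrix.SpecialLinearGroup.coe_inv, he, Matrix.adjugate_fin_two_of]
  ext i j
  fin_cases i <;> fin_cases j <;> simp

lemma exists_cong (g : Matrix.SpecialLinearGroup (Fin 2) ℝ) (hg : g ∈ F) :
    ∃ p q r s : ℤ, Cong g p q r s := by
  unfold F at hg
  induction hg using Subgroup.closure_induction with
  | mem x hx =>
    rcases hx with rfl | hx
    · refine ⟨1, 2, 0, 1, odd_one, even_two, Even.zero, odd_one, by norm_num, ?_⟩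
      ext i j
      fin_cases i <;> fin_cases j <;> simp [a]
    · rw [Set.mem_singleton_iff] at hx
      subst hx
      refine ⟨1, 0, 2, 1, odd_one, Even.zero, even_two, odd_one, by norm_num, ?_⟩
      ext i j
      fin_cases i <;> fin_cases j <;> simp [b]
  | one => exact ⟨_, _, _, _, cong_one⟩
  | mul x y _ _ hx hy =>
    obtain ⟨p, q, r, s, h⟩ := hx
    obtain ⟨p', q', r', s', h'⟩ := hy
    exact ⟨_, _, _, _, cong_mul h h'⟩
  | inv x _ hx =>
    obtain ⟨p, q, r, s, h⟩ := hx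
    exact ⟨_, _, _, _, cong_inv h⟩

/-- the points of one orbit of the stabiliser of `(1/2, 1/2)` -/
def e (x y : ℝ) (k : ℤ) : Fin 2 → ℝ := ![x + k * (y - x), y + k * (y - x)]

lemma e_inj (x y : ℝ) (hxy : x ≠ y) (k l : ℤ) (h : e x y k = e x y l) : k = l := by
  have h0 : x + k * (y - x) = x + l * (y - x) := congrFun h 0
  have h1 : (k : ℝ) * (y - x) = l * (y - x) := by linarith
  have h2 : y - x ≠ 0 := sub_ne_zero.mpr (Ne.symm hxy)
  exact_mod_cast mul_right_cancel₀ h2 h1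

/-- If a congruence matrix with entries bounded by `M` keeps a point very near `(1/2, 1/2)`
in the square, then it acts on the orbit as a shift. -/
lemma shift {g : Matrix.SpecialLinearGroup (Fin 2) ℝ} {p q r s : ℤ} (h : Cong g p q r s)
    (M : ℕ) (hp : |p| ≤ M) (hq : |q| ≤ M) (hr : |r| ≤ M) (hs : |s| ≤ M)
    (x y : ℝ) (k : ℤ) (hx : |e x y k 0 - 1 / 2| * (4 * M + 4) < 1)
    (hy : |e x y k 1 - 1 / 2| * (4 * M + 4) < 1)
    (hmem : Matrix.mulVec (g : Matrix (Fin 2) (Fin 2) ℝ) (e x y k) ∈ Q) :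
    Matrix.mulVec (g : Matrix (Fin 2) (Fin 2) ℝ) (e x y k) = e x y (k + q) := by
  obtain ⟨op, eq', er, os, hd, he⟩ := h
  have hM : (0 : ℝ) ≤ M := Nat.cast_nonneg M
  have hp' : |(p : ℝ)| ≤ M := by exact_mod_cast hp
  have hq' : |(q : ℝ)| ≤ M := by exact_mod_cast hq
  have hr' : |(r : ℝ)| ≤ M := by exact_mod_cast hr
  have hs' : |(s : ℝ)| ≤ M := by exact_mod_cast hs
  set X := e x y k 0 with hX
  set Y := e x y k 1 with hY
  have m0 : Matrix.mulVec (g : Matrix (Fin 2) (Fin 2) ℝ) (e x y k) 0 = p * X + q * Y := by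
    rw [he]; simp [Matrix.mulVec, dotProduct, Fin.sum_univ_two, hX, hY]
  have m1 : Matrix.mulVec (g : Matrix (Fin 2) (Fin 2) ℝ) (e x y k) 1 = r * X + s * Y := by
    rw [he]; simp [Matrix.mulVec, dotProduct, Fin.sum_univ_two, hX, hY]
  have key : ∀ (c d : ℤ), |(c : ℝ)| ≤ M → |(d : ℝ)| ≤ M → Odd (c + d) → 0 < c * X + d * Y →
      c * X + d * Y < 1 → c + d = 1 := by
    intro c d hc hd' ho h0 h1
    have b1 : |(c : ℝ) * (X - 1 / 2)| ≤ M * |X - 1 / 2| := by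
      rw [abs_mul]; exact mul_le_mul_of_nonneg_right hc (abs_nonneg _)
    have b2 : |(d : ℝ) * (Y - 1 / 2)| ≤ M * |Y - 1 / 2| := by
      rw [abs_mul]; exact mul_le_mul_of_nonneg_right hd' (abs_nonneg _)
    have b3 : M * |X - 1 / 2| < 1 / 4 := by nlinarith [abs_nonneg (X - 1 / 2)]
    have b4 : M * |Y - 1 / 2| < 1 / 4 := by nlinarith [abs_nonneg (Y - 1 / 2)]
    have b5 := abs_lt.mp (lt_of_le_of_lt b1 b3)
    have b6 := abs_lt.mp (lt_of_le_of_lt b2 b4)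
    have c1 : (-1 : ℝ) < ((c + d : ℤ) : ℝ) := by push_cast; nlinarith
    have c2 : ((c + d : ℤ) : ℝ) < 3 := by push_cast; nlinarith
    have c3 : (-1 : ℤ) < c + d := by exact_mod_cast c1
    have c4 : c + d < 3 := by exact_mod_cast c2
    obtain ⟨w, hw⟩ := ho
    omega
  have k0 := hmem 0
  have k1 := hmem 1
  rw [m0] at k0
  rw [m1] at k1
  have s1 := key p q hp' hq' (op.add_even eq') k0.1 k0.2
  have s2 := key r s hr' hs' (er.add_odd os) k1.1 k1.2
  have hp1 : p = 1 - q := by linarith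
  have hs1 : s = 1 - r := by linarith
  have hr1 : r = -q := by
    subst hp1 hs1
    linarith
  subst hp1 hs1 hr1
  ext i
  fin_cases i
  · show Matrix.mulVec (g : Matrix (Fin 2) (Fin 2) ℝ) (e x y k) 0 = _
    rw [m0, hX, hY]
    simp only [e, Matrix.cons_val_zero, Matrix.cons_val_one]
    push_cast
    ring_nf
    try simp
    try ring
  · show Matrix.mulVec (g : Matrix (Fin 2) (Fin 2) ℝ) (e x y k) 1 = _
    rw [m1, hX, hY]
    simp only [e, Matrix.cons_val_zero, Matrix.cons_val_one]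
    push_cast
    ring_nf
    try simp
    try ring


/-- a generic point near `(1/2, 1/2)` whose first orbit points avoid a null set -/
lemma exists_point (C : Set (Fin 2 → ℝ)) (hC : volume C = 0) (ρ : ℝ) (hρ : 0 < ρ) :
    ∃ x y : ℝ, x ≠ y ∧ |x - 1 / 2| < ρ ∧ |y - 1 / 2| < ρ ∧ ∀ k : ℤ, e x y k ∉ C := by
  have hlin : ∀ k : ℤ, ∃ L : (Fin 2 → ℝ) →ₗ[ℝ] (Fin 2 → ℝ), LinearMap.det L ≠ 0 ∧
      ∀ v : Fin 2 → ℝ, L v = e (v 0) (v 1) k := by
    intro k
    refine ⟨Matrix.toLin' !![1 - (k : ℝ), (k : ℝ); -(k : ℝ), 1 + (k : ℝ)], ?_, ?_⟩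
    · rw [LinearMap.det_toLin', Matrix.det_fin_two_of]
      have : (1 - (k : ℝ)) * (1 + k) - k * -k = 1 := by ring
      rw [this]; exact one_ne_zero
    · intro v
      ext i
      fin_cases i
      · simp [Matrix.toLin'_apply, Matrix.mulVec, dotProduct, Fin.sum_univ_two, e]; ring
      · simp [Matrix.toLin'_apply, Matrix.mulVec, dotProduct, Fin.sum_univ_two, e]; ring
  have hnull : ∀ k : ℤ, volume {v : Fin 2 → ℝ | e (v 0) (v 1) k ∈ C} = 0 := by
    intro k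
    obtain ⟨L, hL, hLe⟩ := hlin k
    have : {v : Fin 2 → ℝ | e (v 0) (v 1) k ∈ C} = L ⁻¹' C := by
      ext v; simp only [Set.mem_ofPred_eq, Set.mem_preimage, hLe]
    rw [this, Measure.addHaar_preimage_linearMap volume hL, hC, mul_zero]
  have hdiag : volume {v : Fin 2 → ℝ | v 0 = v 1} = 0 := by
    have h1 : {v : Fin 2 → ℝ | v 0 = v 1} =
        ((LinearMap.ker (LinearMap.proj (R := ℝ) (φ := fun _ : Fin 2 => ℝ) 0 -
          LinearMap.proj (R := ℝ) (φ := fun _ : Fin 2 => ℝ) 1) : Submodule ℝ (Fin 2 → ℝ)) :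
            Set (Fin 2 → ℝ)) := by
      ext v
      simp [sub_eq_zero]
    rw [h1]
    apply Measure.addHaar_submodule
    intro htop
    have : (![1, 0] : Fin 2 → ℝ) ∈ (LinearMap.ker (LinearMap.proj (R := ℝ)
        (φ := fun _ : Fin 2 => ℝ) 0 - LinearMap.proj (R := ℝ) (φ := fun _ : Fin 2 => ℝ) 1)) := by
      rw [htop]; trivial
    simp at this
  have hbad : volume ((⋃ k : ℤ, {v : Fin 2 → ℝ | e (v 0) (v 1) k ∈ C}) ∪
      {v : Fin 2 → ℝ | v 0 = v 1}) = 0 := by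
    rw [measure_union_null_iff]
    exact ⟨measure_iUnion_null hnull, hdiag⟩
  have hball : 0 < volume (Metric.ball (fun _ => 1 / 2 : Fin 2 → ℝ) ρ) :=
    Metric.measure_ball_pos volume _ hρ
  have hnot : ¬ (Metric.ball (fun _ => 1 / 2 : Fin 2 → ℝ) ρ ⊆
      (⋃ k : ℤ, {v : Fin 2 → ℝ | e (v 0) (v 1) k ∈ C}) ∪ {v : Fin 2 → ℝ | v 0 = v 1}) := by
    intro hsub
    have := measure_mono (μ := volume) hsub
    rw [hbad] at this
    exact absurd (lt_of_lt_of_le hball this) (lt_irrefl _)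
  rw [Set.not_subset] at hnot
  obtain ⟨v, hv, hv'⟩ := hnot
  rw [Set.mem_union, not_or] at hv'
  refine ⟨v 0, v 1, hv'.2, ?_, ?_, ?_⟩
  · have h1 := dist_le_pi_dist v (fun _ => 1 / 2 : Fin 2 → ℝ) 0
    have h2 : dist v (fun _ => 1 / 2 : Fin 2 → ℝ) < ρ := hv
    rw [Real.dist_eq] at h1
    exact lt_of_le_of_lt h1 h2
  · have h1 := dist_le_pi_dist v (fun _ => 1 / 2 : Fin 2 → ℝ) 1
    have h2 : dist v (fun _ => 1 / 2 : Fin 2 → ℝ) < ρ := hv
    rw [Real.dist_eq] at h1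
    exact lt_of_le_of_lt h1 h2
  · intro k hk
    exact hv'.1 (Set.mem_iUnion.mpr ⟨k, hk⟩)


lemma exists_bound {n : ℕ} (f : Fin n → ℤ) : ∃ M : ℕ, ∀ i, |f i| ≤ M := by
  refine ⟨∑ i, (f i).natAbs, fun i => ?_⟩
  have h := Finset.single_le_sum (f := fun i => (f i).natAbs) (s := Finset.univ)
    (fun _ _ => Nat.zero_le _) (Finset.mem_univ i)
  have h2 : (f i).natAbs ≤ ∑ i, (f i).natAbs := h
  rw [Int.abs_eq_natAbs]
  exact_mod_cast h2

/-- entries of the inverses of finitely many elements of `F` are bounded -/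
lemma exists_entries {n : ℕ} (g : Fin n → Matrix.SpecialLinearGroup (Fin 2) ℝ)
    (hg : ∀ i, g i ∈ F) : ∃ M : ℕ, ∀ i, ∃ p q r s : ℤ, Cong (g i)⁻¹ p q r s ∧
      |p| ≤ M ∧ |q| ≤ M ∧ |r| ≤ M ∧ |s| ≤ M := by
  choose p q r s h using fun i => exists_cong (g i)⁻¹ (inv_mem (hg i))
  obtain ⟨M1, h1⟩ := exists_bound p
  obtain ⟨M2, h2⟩ := exists_bound q
  obtain ⟨M3, h3⟩ := exists_bound r
  obtain ⟨M4, h4⟩ := exists_bound s
  refine ⟨M1 + M2 + M3 + M4, fun i => ⟨p i, q i, r i, s i, h i, ?_, ?_, ?_, ?_⟩⟩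
  · have := h1 i; push_cast; omega
  · have := h2 i; push_cast; omega
  · have := h3 i; push_cast; omega
  · have := h4 i; push_cast; omega

lemma select {n : ℕ} (A : Fin n → Set (Fin 2 → ℝ))
    (g : Fin n → Matrix.SpecialLinearGroup (Fin 2) ℝ) (E : Set (Fin 2 → ℝ)) (hE : E ⊆ Q)
    (hA : ∀ i, A i ⊆ E) (hd : Pairwise (fun i i' => Disjoint (A i) (A i')))
    (hc : (⋃ i, (fun v => Matrix.mulVec ((g i : Matrix (Fin 2) (Fin 2) ℝ)) v) '' A i) = E)
    (M : ℕ) (hM : ∀ i, ∃ p q r s : ℤ, Cong (g i)⁻¹ p q r s ∧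
      |p| ≤ M ∧ |q| ≤ M ∧ |r| ≤ M ∧ |s| ≤ M)
    (x y : ℝ) (hxy : x ≠ y)
    (hnear : ∀ k : ℤ, |k| ≤ M → e x y k ∈ E ∧ |e x y k 0 - 1 / 2| * (4 * M + 4) < 1 ∧
      |e x y k 1 - 1 / 2| * (4 * M + 4) < 1) :
    ∃ α : ℤ → ℤ, (∀ k : ℤ, |k| ≤ (M : ℤ) → |α k| ≤ 2 * (M : ℤ) ∧ ∃ i, e x y (α k) ∈ A i) ∧
      ∀ k l : ℤ, |k| ≤ (M : ℤ) → |l| ≤ (M : ℤ) → α k = α l → k = l := by
  have step : ∀ k : ℤ, ∃ k' : ℤ, |k| ≤ (M : ℤ) → |k'| ≤ 2 * (M : ℤ) ∧ ∃ i, e x y k' ∈ A i ∧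
      Matrix.mulVec ((g i : Matrix (Fin 2) (Fin 2) ℝ)) (e x y k') = e x y k := by
    intro k
    by_cases hk : |k| ≤ M
    · obtain ⟨hkE, hk0, hk1⟩ := hnear k hk
      have hkE' := hkE
      rw [← hc] at hkE'
      simp only [Set.mem_iUnion, Set.mem_image] at hkE'
      obtain ⟨i, v, hv, hvk⟩ := hkE'
      obtain ⟨p, q, r, s, hcong, hp, hq, hr, hs⟩ := hM i
      have hvk' : Matrix.mulVec (((g i)⁻¹ : Matrix.SpecialLinearGroup (Fin 2) ℝ) :
          Matrix (Fin 2) (Fin 2) ℝ) (e x y k) = v := by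
        rw [← hvk, Matrix.mulVec_mulVec, ← Matrix.SpecialLinearGroup.coe_mul, inv_mul_cancel,
          Matrix.SpecialLinearGroup.coe_one, Matrix.one_mulVec]
      have hmem : Matrix.mulVec (((g i)⁻¹ : Matrix.SpecialLinearGroup (Fin 2) ℝ) :
          Matrix (Fin 2) (Fin 2) ℝ) (e x y k) ∈ Q := by
        rw [hvk']; exact hE (hA i hv)
      have hsh := shift hcong M hp hq hr hs x y k hk0 hk1 hmem
      rw [hvk'] at hsh
      refine ⟨k + q, fun _ => ⟨?_, i, ?_, ?_⟩⟩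
      · have := abs_add_le k q
        linarith
      · rw [← hsh]; exact hv
      · rw [← hsh]; exact hvk
    · exact ⟨0, fun h => absurd h hk⟩
  choose α hα using step
  refine ⟨α, fun k hk => ⟨(hα k hk).1, ?_⟩, ?_⟩
  · obtain ⟨i, hi, _⟩ := (hα k hk).2
    exact ⟨i, hi⟩
  · intro k l hk hl hkl
    obtain ⟨i, hi, hi'⟩ := (hα k hk).2
    obtain ⟨j, hj, hj'⟩ := (hα l hl).2
    have hij : i = j := by
      by_contra hne
      exact Set.disjoint_left.mp (hd hne) hi (hkl ▸ hj)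
    subst hij
    rw [hkl] at hi'
    exact e_inj x y hxy k l (hi'.symm.trans hj')

/-- **Negative answer to Q2.** The open unit square is not `F`-paradoxical; more strongly,
no set obtained from it by deleting a Lebesgue null set is `F`-paradoxical. -/
theorem result (C : Set (Fin 2 → ℝ)) (hC : volume C = 0) : ¬ IsParadoxical F (Q \ C) := by
  rintro ⟨n, m, A, B, g, h, -, -, hg, hh, hA, hB, hdA, hdB, hAB, hcA, hcB⟩
  obtain ⟨M1, hM1⟩ := exists_entries g hg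
  obtain ⟨M2, hM2⟩ := exists_entries h hh
  set M := M1 + M2 with hMdef
  have hM1' : ∀ i, ∃ p q r s : ℤ, Cong (g i)⁻¹ p q r s ∧
      |p| ≤ M ∧ |q| ≤ M ∧ |r| ≤ M ∧ |s| ≤ M := by
    intro i
    obtain ⟨p, q, r, s, hc, h1, h2, h3, h4⟩ := hM1 i
    refine ⟨p, q, r, s, hc, ?_, ?_, ?_, ?_⟩ <;> rw [hMdef] <;> push_cast <;> omega
  have hM2' : ∀ i, ∃ p q r s : ℤ, Cong (h i)⁻¹ p q r s ∧
      |p| ≤ M ∧ |q| ≤ M ∧ |r| ≤ M ∧ |s| ≤ M := by
    intro i
    obtain ⟨p, q, r, s, hc, h1, h2, h3, h4⟩ := hM2 i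
    refine ⟨p, q, r, s, hc, ?_, ?_, ?_, ?_⟩ <;> rw [hMdef] <;> push_cast <;> omega
  have hMr : (0 : ℝ) ≤ M := Nat.cast_nonneg M
  set ρ : ℝ := 1 / ((1 + 2 * M) * (4 * M + 4)) with hρ
  have hρ0 : 0 < ρ := by rw [hρ]; positivity
  obtain ⟨x, y, hxy, hx, hy, hnC⟩ := exists_point C hC ρ hρ0
  have hbd : ∀ (k : ℤ) (z : ℝ), |k| ≤ M → |z - 1 / 2| < ρ →
      |z + k * (y - x) - 1 / 2| * (4 * M + 4) < 1 := by
    intro k z hk hz
    have hk' : |(k : ℝ)| ≤ M := by exact_mod_cast hk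
    have h1 : |y - x| ≤ 2 * ρ := by
      have : y - x = (y - 1 / 2) - (x - 1 / 2) := by ring
      rw [this]
      exact le_trans (abs_sub _ _) (by linarith)
    have h2 : |(k : ℝ) * (y - x)| ≤ M * (2 * ρ) := by
      rw [abs_mul]
      exact mul_le_mul hk' h1 (abs_nonneg _) hMr
    have h3 : |z + k * (y - x) - 1 / 2| < (1 + 2 * M) * ρ := by
      have : z + k * (y - x) - 1 / 2 = (z - 1 / 2) + k * (y - x) := by ring
      rw [this]
      refine lt_of_le_of_lt (abs_add_le _ _) ?_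
      nlinarith
    have h4 : (1 + 2 * (M : ℝ)) * ρ * (4 * M + 4) = 1 := by
      rw [hρ]
      have : (1 + 2 * (M : ℝ)) ≠ 0 := by positivity
      have : (4 * (M : ℝ) + 4) ≠ 0 := by positivity
      field_simp
    calc |z + k * (y - x) - 1 / 2| * (4 * M + 4) < (1 + 2 * M) * ρ * (4 * M + 4) :=
          mul_lt_mul_of_pos_right h3 (by positivity)
      _ = 1 := h4
  have hnear : ∀ k : ℤ, |k| ≤ M → e x y k ∈ Q \ C ∧ |e x y k 0 - 1 / 2| * (4 * M + 4) < 1 ∧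
      |e x y k 1 - 1 / 2| * (4 * M + 4) < 1 := by
    intro k hk
    have h0 : |e x y k 0 - 1 / 2| * (4 * M + 4) < 1 := hbd k x hk hx
    have h1 : |e x y k 1 - 1 / 2| * (4 * M + 4) < 1 := hbd k y hk hy
    refine ⟨⟨?_, hnC k⟩, h0, h1⟩
    have small : ∀ t : ℝ, |t - 1 / 2| * (4 * M + 4) < 1 → 0 < t ∧ t < 1 := by
      intro t ht
      have h5 : |t - 1 / 2| < 1 / 2 := by nlinarith [abs_nonneg (t - 1 / 2)]
      have := abs_lt.mp h5
      constructor <;> linarith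
    intro i
    fin_cases i
    · exact small _ h0
    · exact small _ h1
  obtain ⟨α, hα, hαi⟩ := select A g (Q \ C) Set.sdiff_subset hA hdA hcA M hM1' x y hxy hnear
  obtain ⟨β, hβ, hβi⟩ := select B h (Q \ C) Set.sdiff_subset hB hdB hcB M hM2' x y hxy hnear
  -- counting
  let I : Finset ℤ := Finset.Icc (-(M : ℤ)) M
  let J : Finset ℤ := Finset.Icc (-(2 * M : ℤ)) (2 * M)
  have hI : ∀ k, k ∈ I ↔ |k| ≤ (M : ℤ) := by
    intro k; simp only [I, Finset.mem_Icc, abs_le]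
  have hJ : ∀ k, k ∈ J ↔ |k| ≤ (2 * M : ℤ) := by
    intro k; simp only [J, Finset.mem_Icc, abs_le]
  have h1 : (I.image α).card = I.card := by
    apply Finset.card_image_of_injOn
    intro k hk l hl hkl
    exact hαi k l ((hI k).mp hk) ((hI l).mp hl) hkl
  have h2 : (I.image β).card = I.card := by
    apply Finset.card_image_of_injOn
    intro k hk l hl hkl
    exact hβi k l ((hI k).mp hk) ((hI l).mp hl) hkl
  have hdisj : Disjoint (I.image α) (I.image β) := by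
    rw [Finset.disjoint_left]
    intro w hw hw'
    rw [Finset.mem_image] at hw hw'
    obtain ⟨k, hk, rfl⟩ := hw
    obtain ⟨l, hl, hl'⟩ := hw'
    obtain ⟨i, hi⟩ := (hα k ((hI k).mp hk)).2
    obtain ⟨j, hj⟩ := (hβ l ((hI l).mp hl)).2
    rw [hl'] at hj
    exact Set.disjoint_left.mp (hAB i j) hi hj
  have hsub : I.image α ∪ I.image β ⊆ J := by
    intro w hw
    rw [Finset.mem_union, Finset.mem_image, Finset.mem_image] at hw
    rcases hw with ⟨k, hk, rfl⟩ | ⟨k, hk, rfl⟩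
    · exact (hJ _).mpr (hα k ((hI k).mp hk)).1
    · exact (hJ _).mpr (hβ k ((hI k).mp hk)).1
  have hcard := Finset.card_le_card hsub
  rw [Finset.card_union_of_disjoint hdisj, h1, h2] at hcard
  have cI : I.card = 2 * M + 1 := by
    simp only [I, Int.card_Icc]; omega
  have cJ : J.card = 4 * M + 1 := by
    simp only [J, Int.card_Icc]; omega
  rw [cI, cJ] at hcard
  omega

end Pool.Agent.Results.MP_104382_al.SquareNotFParadoxical
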