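import Mathlib
import Pool.Agent.TR.PlaneFinal

/-!
# MP_287c87_an: the trace inequality in the plane

Every complex elliptic first-order homogeneous operator with constant coefficients in two
variables satisfies the trace inequality for all measures with linear growth.
-/

open Matrix MeasureTheory

namespace Pool.Agent.Results.MP_287c87_an.PlaneOperators

/-- The complex symbol `A(ξ) = ξ₀ A₀ + ξ₁ A₁`. -/
noncomputable def symbol {N K : ℕ} (A : Fin 2 → Matrix (Fin K) (Fin N) ℝ) (ξ : Fin 2 → ℂ) :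
    Matrix (Fin K) (Fin N) ℂ :=
  ∑ j, ξ j • (A j).map (algebraMap ℝ ℂ)

/-- `A(ξ)` is injective on `ℂ^N` for every nonzero `ξ ∈ ℂ²`. -/
def IsCElliptic {N K : ℕ} (A : Fin 2 → Matrix (Fin K) (Fin N) ℝ) : Prop :=
  ∀ ξ : Fin 2 → ℂ, ξ ≠ 0 → ∀ v : Fin N → ℂ, symbol A ξ *ᵥ v = 0 → v = 0

/-- The operator `A(D) u = A₀ ∂₀ u + A₁ ∂₁ u`. -/
noncomputable def opD {N K : ℕ} (A : Fin 2 → Matrix (Fin K) (Fin N) ℝ)
    (u : EuclideanSpace ℝ (Fin 2) → EuclideanSpace ℝ (Fin N)) (x : EuclideanSpace ℝ (Fin 2)) :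
    EuclideanSpace ℝ (Fin K) :=
  ∑ j, Matrix.toEuclideanLin (A j) (fderiv ℝ u x (EuclideanSpace.single j 1))

/-- The growth condition `μ (B(x, r)) ≤ C' r` for all balls. -/
def HasLinearGrowth (C' : ℝ) (μ : Measure (EuclideanSpace ℝ (Fin 2))) : Prop :=
  ∀ x : EuclideanSpace ℝ (Fin 2), ∀ r : ℝ, 0 < r → μ (Metric.ball x r) ≤ ENNReal.ofReal (C' * r)

/-- For every first-order operator `A(D) = A₀ ∂₀ + A₁ ∂₁` in the plane (real `K × N` matrices)
whose complex symbol is injective for all nonzero `ξ ∈ ℂ²` and every `C' > 0` there is a constant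
`C` with `∫ |u| dμ ≤ C ‖A(D) u‖_{L¹}` for all smooth compactly supported `u` and all measures `μ`
with `μ (B(x, r)) ≤ C' r`. -/
theorem result :
    ∀ (N K : ℕ) (A : Fin 2 → Matrix (Fin K) (Fin N) ℝ), IsCElliptic A →
      ∀ C' : ℝ, 0 < C' → ∃ C : ℝ, 0 < C ∧
        ∀ μ : Measure (EuclideanSpace ℝ (Fin 2)), IsFiniteMeasureOnCompacts μ →
          HasLinearGrowth C' μ →
          ∀ u : EuclideanSpace ℝ (Fin 2) → EuclideanSpace ℝ (Fin N),
            ContDiff ℝ (⊤ : ℕ∞) u → HasCompactSupport u →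
            ∫⁻ x, ‖u x‖ₑ ∂μ ≤ ENNReal.ofReal C * ∫⁻ x, ‖opD A u x‖ₑ := by
  intro N K A hA C' hC'
  obtain ⟨C, hC, h⟩ := TrI.planeFinal N K A hA C' hC'
  refine ⟨C, hC, fun μ hμ hgr u hu hus => h μ hμ (fun x r hr => ?_) u hu hus⟩
  simpa using hgr x r hr

end Pool.Agent.Results.MP_287c87_an.PlaneOperators
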