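import Pool.Agent.TR.SLM
import Pool.Agent.TR.SLE
import Pool.Agent.TR.SLB
import Pool.Agent.TR.TENS
import Pool.Agent.TR.DEV
import Pool.Agent.TR.MU
import Pool.Agent.TR.CG
import Pool.Agent.TR.LI
import Pool.Agent.TR.HF
import Pool.Agent.TR.LA
import Pool.Agent.TR.A0
import Pool.Agent.TR.LAB
import Pool.Agent.TR.PT
import Pool.Agent.TR.CH
import Pool.Agent.TR.INT
import Pool.Agent.TR.K1
import Pool.Agent.TR.KD
import Pool.Agent.TR.K2G
import Pool.Agent.TR.VK
import Pool.Agent.TR.NS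
import Pool.Agent.TR.RKG
import Pool.Agent.TR.KPG

/-!
# Trace inequality for operators with real analytic slicing fields, in every dimension

Let `A(D) u = ∑ j, A_j ∂_j u` on `ℝ^d`. A slicing field of `A(D)` is a map `w : ℝ^d → ℝ^N` such
that `⟨w(y), ∑ j, y_j M_j⟩ = 0` for all `y` and all `M_1, ..., M_d ∈ ℝ^N` with
`∑ j, A_j M_j = 0`; then `⟨w(y), Du(x) y⟩` is controlled by `A(D) u (x)`. The theorem `result` says
that the trace inequality of Q1 holds for `A(D)` if for every `v ≠ 0` there is a real analytic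
slicing field with a value which is not orthogonal to `v`.

Examples (corollaries below): the symmetric gradient in every dimension, the symmetrised
derivative of symmetric `k`-tensor fields in every dimension.
-/

set_option autoImplicit false

open MeasureTheory Metric Set

namespace Pool.Agent.Results.MP_287c87_an.SlicedOperators

/-- the abstract theorem on operators with charts -/
theorem abs : TrI.StmtAbs := by
  have hCG := TrI.stmtCG
  have hDev := TrI.stmtDev
  have hLI := TrI.stmtLI hCG hDev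
  have hHF := TrI.stmtHF hLI
  have hTV := TrI.stmtTV (TrI.stmtLT hCG hDev) hHF
  have hA0 := TrI.stmtA0 hDev hLI hHF (TrI.stmtLA hCG hDev)
  exact TrI.stmtAbs (TrI.stmtPt hDev hTV hA0) TrI.stmtLab TrI.stmtMu TrI.stmtCharts hDev

/-- the local Korn-Poincare property of complex elliptic operators -/
theorem kpg : TrI.StmtKPG :=
  TrI.stmtKPG TrI.stmtNS TrI.stmtVK TrI.stmtRKG (TrI.stmtK1 TrI.stmtCG TrI.stmtDev)
    (TrI.stmtK2G TrI.stmtKD TrI.stmtCG TrI.stmtDev)

/-- A real analytic slicing field of the operator `A(D) u = ∑ j, A_j ∂_j u`: a real analytic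
`w : ℝ^d → ℝ^N` with `⟨w(y), ∑ j, y_j M_j⟩ = 0` for all `y` and all `M_1, ..., M_d` with
`∑ j, A_j M_j = 0`. -/
def IsSlicing {d N K : ℕ} (A : Fin d → Matrix (Fin K) (Fin N) ℝ)
    (w : EuclideanSpace ℝ (Fin d) → EuclideanSpace ℝ (Fin N)) : Prop :=
  AnalyticOnNhd ℝ w Set.univ ∧
    ∀ (y : EuclideanSpace ℝ (Fin d)) (M : Fin d → EuclideanSpace ℝ (Fin N)),
      ∑ j, Matrix.toEuclideanLin (A j) (M j) = 0 → inner ℝ (w y) (∑ j, y j • M j) = 0

/-- The trace inequality of Q1 for the operator `A(D) u = ∑ j, A_j ∂_j u`: for every `C' > 0` there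
is `C > 0` such that `∫ |u| dμ ≤ C ‖A(D) u‖_{L^1}` for all measures `μ`, finite on compact sets,
with `μ (B(x, r)) ≤ C' r^(d-1)` and all smooth compactly supported `u`. -/
def TraceInequality {d N K : ℕ} (A : Fin d → Matrix (Fin K) (Fin N) ℝ) : Prop :=
  ∀ C' : ℝ, 0 < C' → ∃ C : ℝ, 0 < C ∧
    ∀ μ : MeasureTheory.Measure (EuclideanSpace ℝ (Fin d)),
      MeasureTheory.IsFiniteMeasureOnCompacts μ →
      (∀ x : EuclideanSpace ℝ (Fin d), ∀ r : ℝ, 0 < r →
          μ (Metric.ball x r) ≤ ENNReal.ofReal (C' * r ^ (d - 1))) →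
    ∀ u : EuclideanSpace ℝ (Fin d) → EuclideanSpace ℝ (Fin N),
      ContDiff ℝ (⊤ : ℕ∞) u → HasCompactSupport u →
      ∫⁻ x, ‖u x‖ₑ ∂μ ≤ ENNReal.ofReal C *
        ∫⁻ x, ‖∑ j : Fin d, Matrix.toEuclideanLin (A j)
            (fderiv ℝ u x (EuclideanSpace.single j 1))‖ₑ

/-- Trace inequality for operators with enough real analytic slicing fields, in every dimension. -/
theorem result (d N K : ℕ) (hd : 1 ≤ d) (A : Fin d → Matrix (Fin K) (Fin N) ℝ)
    (hA : ∀ v : EuclideanSpace ℝ (Fin N), v ≠ 0 →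
      ∃ w, IsSlicing A w ∧ ∃ y, inner ℝ (w y) v ≠ 0) : TraceInequality A := by
  refine TrI.sliced (TrI.stmtSL kpg abs) d N K hd A fun v hv => ?_
  obtain ⟨w, hw, hy⟩ := hA v hv
  exact ⟨w, hw.1, hw.2, hy⟩

/-- Corollary: the symmetric gradient in every dimension (`w y = y`). -/
theorem bd : TrI.BDStatement := TrI.bd_of_SL (TrI.stmtSL kpg abs)

/-- Corollary: symmetric tensor fields (`w y = y ^ k`; `k = 1` is the symmetric gradient). -/
theorem tens : TrI.StmtTENS := TrI.stmtTENS kpg abs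

/-- Remark: the hypothesis of `result` implies complex ellipticity. -/
theorem ellip {d N K : ℕ} (A : Fin d → Matrix (Fin K) (Fin N) ℝ)
    (hA : ∀ v : EuclideanSpace ℝ (Fin N), v ≠ 0 →
      ∃ w, IsSlicing A w ∧ ∃ y, inner ℝ (w y) v ≠ 0) : TrI.SymEll A := by
  refine TrI.symEll_of_sliced A fun v hv => ?_
  obtain ⟨w, hw, hy⟩ := hA v hv
  exact ⟨w, hw.1, hw.2, hy⟩

end Pool.Agent.Results.MP_287c87_an.SlicedOperators
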