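import Pool.Agent.LibH11.SlicedFinite

/-!
# One finite type invariant suffices on knots of bounded complexity
-/

namespace Pool.Agent.Results.MP_31fd3b_gt.FiniteDeterminacy

open Pool.Agent.LibH11.Sliced

universe u

/-- Every knot belongs to one of the classes `BuiltFrom L`, and for each `L` there is a single
rational valued finite type invariant `w` such that, for all knots `K`, `K'` in the class
`BuiltFrom L`, `w` takes the same value on `K` and `K'` if and only if, for every finite type
invariant `v` with values in an abelian group, `v K - v K'` is a torsion element. -/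
theorem result :
    (∀ K : Knot, ∃ L : ℕ, BuiltFrom L K) ∧
    ∀ L : ℕ, ∃ w : Knot → ℚ, IsFiniteType w ∧
      ∀ K K' : Knot, BuiltFrom L K → BuiltFrom L K' →
        (w K = w K' ↔ ∀ (A : Type u) [AddCommGroup A] (v : Knot → A), IsFiniteType v →
          ∃ m : ℕ, 0 < m ∧ m • v K = m • v K') :=
  ⟨exists_builtFrom, fun L => finite_determinacy L⟩

end Pool.Agent.Results.MP_31fd3b_gt.FiniteDeterminacy
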