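import Pool.Agent.LibH11.CoeffGroups

/-!
Separation of two knots by a finite type invariant with values in any abelian group implies
separation by a finite type invariant with values in a prime field.
-/

namespace Pool.Agent.Results.MP_31fd3b_gt.PrimeFieldsSuffice

open Pool.Agent.LibH11

/-- If a finite type invariant with values in some abelian group `A` separates the oriented knots
`K` and `K'`, then for some prime `p` a finite type invariant with values in the field with `p`
elements separates them. -/
theorem result {A : Type*} [AddCommGroup A] (v : Knot → A) (hv : IsFiniteType v) (K K' : Knot)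
    (h : v K ≠ v K') :
    ∃ p : ℕ, p.Prime ∧ ∃ w : Knot → ZMod p, IsFiniteType w ∧ w K ≠ w K' := by
  obtain ⟨p, hp, w, hw, hne⟩ := exists_prime_separating hv h
  exact ⟨p, hp, w, hw, hne⟩

end Pool.Agent.Results.MP_31fd3b_gt.PrimeFieldsSuffice
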