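import Pool.Agent.IT.Final
import Pool.Agent.IT.Coef

/-!
Finite type invariants with values in any given nontrivial abelian group separate all iterated
torus knots.
-/

namespace Pool.Agent.Kept.MP_31fd3b_SeparateIteratedTorus

open Pool.Agent.LibH11 Pool.Agent.IT

/-- Let `A` be a nontrivial abelian group. If `K` and `K'` are iterated torus knots (members of the
smallest class of knots that contains the unknot and is closed under cabling) and every finite type
invariant with values in `A` takes the same value on them, then `K = K'`. -/
theorem result (A : Type*) [AddCommGroup A] [Nontrivial A] (K K' : Knot)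
    (hK : IteratedTorus K) (hK' : IteratedTorus K')
    (h : ∀ v : Knot → A, IsFiniteType v → v K = v K') : K = K' := by
  apply main_thm K K' hK hK'
  intro v hv
  by_contra hne
  obtain ⟨w, hw, hne'⟩ := exists_separating hv hne A
  exact hne' (h w hw)

end Pool.Agent.Kept.MP_31fd3b_SeparateIteratedTorus
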