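import Mathlib
import Pool.Agent.RQM.C38

/-!
The class number one problem for all real quadratic fields of (extended) Richaud–Degert type:
`ℚ(√d)` with `d = m² + r`, where `r` divides `4m`.
-/

namespace Pool.Agent.Results.MP_321647_nt.RichaudDegert

open scoped NumberField

/-- The squarefree `d > 1` which can be written as `d = m² + r` with `r ∣ 4m` and for which the
ring of integers of `ℚ(√d)` is a unique factorisation domain are exactly forty-three numbers. -/
theorem result : {d : ℕ | 1 < d ∧ Squarefree d ∧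
      (∃ m r : ℤ, 0 < m ∧ r ∣ 4 * m ∧ (d : ℤ) = m ^ 2 + r) ∧
      UniqueFactorizationMonoid (𝓞 (IntermediateField.adjoin ℚ {Real.sqrt (d : ℝ)}))} =
    {2, 3, 5, 6, 7, 11, 13, 14, 17, 21, 23, 29, 33, 37, 38, 47, 53, 62, 69, 77, 83, 93, 101, 141,
      167, 173, 197, 213, 227, 237, 293, 398, 413, 437, 453, 573, 677, 717, 1077, 1133, 1253,
      1293, 1757} := by
  have h : {d : ℕ | 1 < d ∧ Squarefree d ∧
      (∃ m r : ℤ, 0 < m ∧ r ∣ 4 * m ∧ (d : ℤ) = m ^ 2 + r) ∧
      UniqueFactorizationMonoid (𝓞 (IntermediateField.adjoin ℚ {Real.sqrt (d : ℝ)}))} =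
      {d | d ∈ RDF.list43} := RDF.rd_all
  rw [h]
  ext d
  simp only [RDF.list43, Set.mem_ofPred_eq, List.mem_cons, List.not_mem_nil, or_false,
    Set.mem_insert_iff, Set.mem_singleton_iff]

end Pool.Agent.Results.MP_321647_nt.RichaudDegert
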