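import Mathlib
import Pool.Agent.DPC.AllC

/-! Dade's conjecture for the blocks of a finite group `X` with a normal subgroup `G ^ Ω`, on which
`X` induces permutations and a cyclic group of outer automorphisms of arbitrary order. -/

namespace Pool.Agent.Results.MP_3f89b9_al.CyclicOuterAutomorphisms

open Pool.Agent.DP Pool.Agent.Lib_helper13.Dade

/-- Let `ℓ` be a prime and `G` a finite group with `Z(G) = 1` and `O_ℓ(G) = 1`. Let
`A = Inn(G)⟨a⟩ ≤ Aut(G)` and let Dade's conjecture for `ℓ` hold for every group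
`H` with `O_ℓ(H) = 1` which is isomorphic to `C_T(E) / E`, where `Inn(G) ≤ T ≤ A` and `E` is an
`ℓ`-subgroup of `T` with `E ∩ Inn(G) = 1` (for `E = 1` these are the groups `T`). Let `X` be a
finite group with a normal subgroup `G ^ Ω` (embedded by `e`) on which every element of `X` acts
as a permutation of the coordinates followed by elements of `A` in the coordinates. If the
irreducible character `χ` of `X` lies over the product of the irreducible characters `ξ i` of `G`
(their inner product on `G ^ Ω` is not zero), at least one of which has positive `ℓ`-defect, then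
the alternating sums of Dade's conjecture for `X` and the block of `χ` are `0`. -/
theorem result (ℓ : ℕ) (hℓ : ℓ.Prime) (G : Type) [Group G] [Finite G]
    (hcen : Subgroup.center G = ⊥) (hcore : pCore ℓ G = ⊥) (a : MulAut G)
    (A : Subgroup (MulAut G))
    (hA : A = (MulAut.conj : G →* MulAut G).range ⊔ Subgroup.zpowers a)
    (hD : ∀ T : Subgroup (MulAut G), (MulAut.conj : G →* MulAut G).range ≤ T → T ≤ A →
      ∀ E : Subgroup (MulAut G), E ≤ T → IsPGroup ℓ E →
      E ⊓ (MulAut.conj : G →* MulAut G).range = ⊥ →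
      ∀ (H : Type) [Group H] [Finite H]
        (q : ↥(T ⊓ Subgroup.centralizer (E : Set (MulAut G))) →* H),
        Function.Surjective q → (∀ x, q x = 1 ↔ (x : MulAut G) ∈ E) → pCore ℓ H = ⊥ →
        DadeHolds ℓ H)
    (X Ω : Type) [Group X] [Finite X] [Fintype Ω] (e : (Ω → G) →* X)
    (he : Function.Injective e)
    (hact : ∀ y : X, ∃ (s : Equiv.Perm Ω) (α : Ω → MulAut G), (∀ i, α i ∈ A) ∧
      ∀ x : Ω → G, y * e x * y⁻¹ = e (fun i => α i (x (s i))))
    (𝔐 : Ideal (integralClosure ℤ ℂ)) (h𝔐 : 𝔐.IsMaximal)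
    (hℓ𝔐 : (ℓ : integralClosure ℤ ℂ) ∈ 𝔐) (ξ : Ω → G → ℂ) (hξ : ∀ i, IsIrrChar (ξ i))
    (w : Ω) (hw : ¬ HasDefect ℓ (ξ w) 0) (χ : X → ℂ) (hχ : IsIrrChar χ)
    (hover : ∑ᶠ x : Ω → G, χ (e x) * ∏ i, ξ i (x i)⁻¹ ≠ 0) (d : ℕ) : dadeSum 𝔐 ℓ χ d = 0 :=
  Pool.Agent.DPC.mainC ℓ hℓ G hcen hcore a A hA hD X Ω e he hact 𝔐 h𝔐 hℓ𝔐 ξ hξ w hw χ hχ hover d

end Pool.Agent.Results.MP_3f89b9_al.CyclicOuterAutomorphisms
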