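import Mathlib
import Pool.Agent.DPW.AllW

/-! Dade's conjecture, without any hypothesis on other groups, for the blocks of a finite group `X`
which cover a block of defect one of a component `K` of `X` (more generally, of a subgroup `K` whose
conjugates are equal to `K` or commute with `K`) with `O_ℓ(K) = 1` on which `X` induces a group of
outer automorphisms of order prime to `ℓ`. -/

namespace Pool.Agent.Kept.MP_3f89b9_DefectOneComponent

open Pool.Agent.Lib_helper13.Dade

/-- Let `ℓ` be a prime, `X` a finite group and `K` a subgroup of `X` such that each conjugate of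
`K` is contained in `K` or commutes with `K` elementwise, `O_ℓ(K) = 1`, and `ℓ` does not divide
`|N_X(K) : K C_X(K)|`. Let `ξ` be an irreducible character of `K` of positive `ℓ`-defect such that
the central character of `ξ` does not vanish modulo `𝔐` at the class of some `x` for which
`ℓ ^ 2` does not divide `|C_K(x)|` (that is, the block of `ξ` has a defect group of order `ℓ`).
Then, for every irreducible character `χ` of `X` over `ξ`, the alternating sums of Dade's
conjecture for `X` and the block of `χ` are `0`. -/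
theorem result (ℓ : ℕ) (hℓ : ℓ.Prime) (X : Type) [Group X] [Finite X] (K : Subgroup X)
    (hcomm : ∀ x : X, (∀ k ∈ K, x * k * x⁻¹ ∈ K) ∨
      ∀ k ∈ K, ∀ k' ∈ K, (x * k * x⁻¹) * k' = k' * (x * k * x⁻¹))
    (hcore : pCore ℓ K = ⊥)
    (hout : ¬ ℓ ∣ (K ⊔ Subgroup.centralizer (K : Set X)).relIndex
      (Subgroup.normalizer (K : Set X)))
    (𝔐 : Ideal (integralClosure ℤ ℂ)) (h𝔐 : 𝔐.IsMaximal)
    (hℓ𝔐 : (ℓ : integralClosure ℤ ℂ) ∈ 𝔐)
    (ξ : K → ℂ) (hξ : IsIrrChar ξ) (hd : ¬ HasDefect ℓ ξ 0)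
    (x : K) (hx : ¬ CongrMod 𝔐 (central ξ x) 0)
    (hx2 : ¬ ℓ ^ 2 ∣ Nat.card (Subgroup.centralizer ({x} : Set K)))
    (χ : X → ℂ) (hχ : IsIrrChar χ) (hover : ∑ᶠ k : K, χ k * ξ k⁻¹ ≠ 0) (d : ℕ) :
    dadeSum 𝔐 ℓ χ d = 0 :=
  Pool.Agent.DPW.mainW1' ℓ hℓ X K hcomm hcore hout 𝔐 h𝔐 hℓ𝔐 ξ hξ hd x hx hx2 χ hχ hover d

end Pool.Agent.Kept.MP_3f89b9_DefectOneComponent
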