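import Mathlib
import Pool.Agent.MDA.FinalM

/-! The structure of a minimal counterexample to Dade's conjecture over a normal subgroup. -/

namespace Pool.Agent.Kept.MP_3f89b9_MinimalCounterexample

open Pool.Agent.DPM Pool.Agent.Lib_helper13.Dade

/-- Let `ℓ` be a prime and `X` a finite group with `O_ℓ(X) = 1` such that Dade's conjecture for `ℓ`
holds for all finite groups `Y` with `O_ℓ(Y) ≤ Z(Y)` and `|Y : Z(Y)| < |X : Z(X)|`. Suppose that
the alternating sum for the block `B` of the irreducible character `χ` of `X` and the defect `d` is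
not zero (so that `X` is a minimal counterexample). Let `M` be a normal subgroup of `X` and `ξ` an
irreducible character of `M` of positive defect under `χ`, and suppose that `B` is the only block
of `X` which covers the block `b` of `ξ`. Then `b` is invariant under `X`, and `X / M` has a normal
Sylow `ℓ`-subgroup `P / M`, with `X / P` abelian and generated by two elements. -/
theorem result (ℓ : ℕ) (hℓ : ℓ.Prime) (X : Type) [Group X] [Finite X] (hcore : pCore ℓ X = ⊥)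
    (hmin : ∀ (Y : Type) [Group Y] [Finite Y], pCore ℓ Y ≤ Subgroup.center Y →
      (Subgroup.center Y).index < (Subgroup.center X).index → DadeHolds ℓ Y)
    (𝔐 : Ideal (integralClosure ℤ ℂ)) (h𝔐 : 𝔐.IsMaximal) (hℓ𝔐 : (ℓ : integralClosure ℤ ℂ) ∈ 𝔐)
    (χ : X → ℂ) (hχ : IsIrrChar χ) (d : ℕ) (hd : dadeSum 𝔐 ℓ χ d ≠ 0)
    (M : Subgroup X) (hM : M.Normal) (ξ : M → ℂ) (hξ : IsIrrChar ξ) (hover : LiesOver χ ξ)
    (hdef : ¬ HasDefect ℓ ξ 0) (hunq : OnlyCovering 𝔐 χ ξ) :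
    (∀ x : X, SameBlock 𝔐 (fun m : M => ξ (MulAut.conjNormal x m)) ξ) ∧
    ∃ P : Subgroup X, P.Normal ∧ M ≤ P ∧ (∀ x ∈ P, ∃ k : ℕ, x ^ ℓ ^ k ∈ M) ∧ ¬ ℓ ∣ P.index ∧
      (∀ x y : X, x * y * x⁻¹ * y⁻¹ ∈ P) ∧ ∃ x y : X, Subgroup.closure {x, y} ⊔ P = ⊤ :=
  mainA ℓ hℓ X hcore hmin 𝔐 h𝔐 hℓ𝔐 χ hχ d hd M hM ξ hξ hover hdef hunq

end Pool.Agent.Kept.MP_3f89b9_MinimalCounterexample
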