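import Mathlib
import Pool.Agent.DPT.FinalB

/-! The minimal normal subgroup of a minimal counterexample to Dade's conjecture and its quotient. -/

namespace Pool.Agent.Results.MP_3f89b9_al.MinimalNormalSubgroup

open Pool.Agent.Lib_helper13.Dade

/-- Let `ℓ` be a prime and `X` a finite group with `O_ℓ(X) ≤ Z(X)` for which Dade's conjecture for
`ℓ` fails, while it holds for all finite groups `Y` with `O_ℓ(Y) ≤ Z(Y)` and
`|Y : Z(Y)| < |X : Z(X)|` (`X` is a minimal counterexample). Then `X / Z(X)` has exactly one minimal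
normal subgroup `N / Z(X)`; it is nonabelian, its order is divisible by `ℓ` and its centralizer in
`X / Z(X)` is trivial. The quotient `X / N` has a normal Sylow `ℓ`-subgroup `P / N` and a normal
subgroup `M / N` of order prime to `ℓ` such that `X / P` is nilpotent and generated by two elements
and `X / PM` is abelian. -/
theorem result (ℓ : ℕ) (hℓ : ℓ.Prime) (X : Type) [Group X] [Finite X]
    (hcore : pCore ℓ X ≤ Subgroup.center X) (hX : ¬ DadeHolds ℓ X)
    (hmin : ∀ (Y : Type) [Group Y] [Finite Y], pCore ℓ Y ≤ Subgroup.center Y →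
      (Subgroup.center Y).index < (Subgroup.center X).index → DadeHolds ℓ Y) :
    ∃ N : Subgroup X, N.Normal ∧ Subgroup.center X < N ∧
      (∀ N' : Subgroup X, N'.Normal → Subgroup.center X < N' → N ≤ N') ∧
      (∃ x ∈ N, ∃ y ∈ N, x * y * x⁻¹ * y⁻¹ ∉ Subgroup.center X) ∧
      (∃ x ∈ N, x ^ ℓ ∈ Subgroup.center X ∧ x ∉ Subgroup.center X) ∧
      (∀ x, (∀ y ∈ N, x * y * x⁻¹ * y⁻¹ ∈ Subgroup.center X) → x ∈ Subgroup.center X) ∧
      ∃ P M : Subgroup X, ∃ _ : P.Normal, M.Normal ∧ N ≤ P ∧ N ≤ M ∧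
        (∀ x ∈ P, ∃ k : ℕ, x ^ ℓ ^ k ∈ N) ∧ ¬ ℓ ∣ P.index ∧ Group.IsNilpotent (X ⧸ P) ∧
        (∃ x y : X, Subgroup.closure {x, y} ⊔ P = ⊤) ∧ (∀ x ∈ M, x ^ ℓ ∈ N → x ∈ N) ∧
        ∀ x y : X, x * y * x⁻¹ * y⁻¹ ∈ P ⊔ M :=
  Pool.Agent.DPT.mainB ℓ hℓ X hcore hX hmin

end Pool.Agent.Results.MP_3f89b9_al.MinimalNormalSubgroup
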