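import Mathlib
import Pool.Agent.Lib_helper13.MonClassDefs
import Pool.Agent.Lib_helper13.MonClass

/-! Dade's conjecture for all finite groups is equivalent to Dade's conjecture for the explicit
groups `M_m((ℤ/r)[C]) ⋊ (C ≀ S_m)`, and to Dade's conjecture for solvable-by-symmetric groups. -/

namespace Pool.Agent.Kept.MP_3f89b9_MonomialMatrices

open Pool.Agent.Lib_helper13 Pool.Agent.Lib_helper13.Dade

/-- Let `ℓ` be a prime, `r ≥ 2` prime to `ℓ` and `C` a finite abelian `ℓ`-group. The following are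
equivalent.
1. Dade's conjecture holds for `ℓ` and all finite groups `G` with `O_ℓ(G)` central and isomorphic
to `C`.
2. Dade's conjecture holds for `ℓ` and all finite groups `G` with `O_ℓ(G)` central and isomorphic
to `C` which have a solvable normal subgroup with quotient isomorphic to a symmetric group.
3. Dade's conjecture holds for `ℓ` and `M_m((ℤ/r)[C]) ⋊ (C ≀ S_m)`, for all `m ≥ 1`.
4. Every positive integer has a positive multiple `m` such that Dade's conjecture holds for `ℓ`
and `M_m((ℤ/r)[C]) ⋊ (C ≀ S_m)`. -/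
theorem result (ℓ : ℕ) (hℓ : ℓ.Prime) (r : ℕ) (hr : 2 ≤ r) (hc : ℓ.Coprime r)
    (C : Type) [CommGroup C] [Finite C] (hC : IsPGroup ℓ C) :
    List.TFAE [
      ∀ (G : Type) [Group G] [Finite G], CoreIs ℓ C G → DadeHolds ℓ G,
      ∀ (G : Type) [Group G] [Finite G], CoreIs ℓ C G → SolvableBySymmetric G → DadeHolds ℓ G,
      ∀ m > 0, DadeMon ℓ C m r,
      ∀ N > 0, ∃ m > 0, N ∣ m ∧ DadeMon ℓ C m r] := by
  have hfℓ : Fact ℓ.Prime := ⟨hℓ⟩
  have hne : NeZero r := ⟨by omega⟩
  tfae_have 1 → 2 := by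
    intro h G _ _ hG _
    exact h G hG
  tfae_have 2 → 3 := by
    intro h m hm
    exact h _ ⟨pCore_monMat_center hc hr hm hC, pCore_monMat_equiv hc hr hm hC⟩
      (solvableBySymmetric C m r)
  tfae_have 3 → 4 := by
    intro h N hN
    exact ⟨N, hN, dvd_rfl, h N hN⟩
  tfae_have 4 → 1 := by
    rintro h G _ _ ⟨hG, ⟨e⟩⟩
    have hG0 : 0 < Nat.card G := Nat.card_pos
    obtain ⟨m, hm, hdvd, hm'⟩ := h (Nat.card G * (Nat.card G + 1)) (by positivity)
    exact dadeHolds_of_monMat e.symm hc hr hG hm hdvd hm'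
  tfae_finish

end Pool.Agent.Kept.MP_3f89b9_MonomialMatrices
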