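import Mathlib
import Pool.Agent.DP.AllQ

/-! Dade's conjecture for the blocks of a finite group `X` with a normal subgroup `G ^ Ω`. -/

namespace Pool.Agent.Kept.MP_3f89b9_NormalPowers

open Pool.Agent.DP Pool.Agent.Lib_helper13.Dade

/-- Let `ℓ` be a prime and `G` a finite group with `O_ℓ(G) = 1` which satisfies Dade's conjecture
for `ℓ`. Let `X` be a finite group with a normal subgroup `G ^ Ω` (embedded by `e`) on which every
element of `X` acts as a permutation of the coordinates followed by an inner automorphism. If the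
irreducible character `χ` of `X` lies over the product of the irreducible characters `ξ i` of `G`
(their inner product on `G ^ Ω` is not zero), at least one of which has positive `ℓ`-defect, then
the alternating sums of Dade's conjecture for `X` and the block of `χ` are `0`. -/
theorem result (ℓ : ℕ) (hℓ : ℓ.Prime) (G : Type) [Group G] [Finite G] (hcore : pCore ℓ G = ⊥)
    (hG : DadeHolds ℓ G) (X Ω : Type) [Group X] [Finite X] [Fintype Ω] (e : (Ω → G) →* X)
    (he : Function.Injective e)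
    (hact : ∀ y : X, ∃ (s : Equiv.Perm Ω) (n : Ω → G), ∀ x : Ω → G,
      y * e x * y⁻¹ = e (fun i => n i * x (s i) * (n i)⁻¹))
    (𝔐 : Ideal (integralClosure ℤ ℂ)) (h𝔐 : 𝔐.IsMaximal)
    (hℓ𝔐 : (ℓ : integralClosure ℤ ℂ) ∈ 𝔐) (ξ : Ω → G → ℂ) (hξ : ∀ i, IsIrrChar (ξ i))
    (w : Ω) (hw : ¬ HasDefect ℓ (ξ w) 0) (χ : X → ℂ) (hχ : IsIrrChar χ)
    (hover : ∑ᶠ x : Ω → G, χ (e x) * ∏ i, ξ i (x i)⁻¹ ≠ 0) (d : ℕ) : dadeSum 𝔐 ℓ χ d = 0 :=
  mainQ ℓ hℓ G hcore hG X Ω e he hact 𝔐 h𝔐 hℓ𝔐 ξ hξ w hw χ hχ hover d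

end Pool.Agent.Kept.MP_3f89b9_NormalPowers
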