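import Mathlib
import Pool.Agent.Lib_helper13.DadeDefs
import Pool.Agent.Lib_helper13.OrthDefs
import Pool.Agent.Lib_helper13.OrthCore

/-! Dade's conjecture for the prime `2` and stabilisers in finite orthogonal groups over fields of
odd order. -/

namespace Pool.Agent.Kept.MP_3f89b9_al.OrthogonalStabilisers

open Pool.Agent.Lib_helper13 Pool.Agent.Lib_helper13.Dade

/-- Let `F` be a finite field of odd order, `V` a finite-dimensional `F`-space with a nondegenerate
symmetric bilinear form `B`, and `R ≤ W` subspaces such that some nonzero vector of `R` is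
orthogonal to `W`. Then the group `G` of the isometries `g` of `B` which fix `R` pointwise and
satisfy `(g - 1) W ≤ R` has `O_2(G) = 1` and satisfies Dade's conjecture for the prime `2`, for
all blocks and all defects. For `R = W` this is the pointwise stabiliser of a degenerate
subspace. -/
theorem result (F V : Type*) [Field F] [Finite F] (h2 : (2 : F) ≠ 0) [AddCommGroup V]
    [Module F V] [Finite V] (B : LinearMap.BilinForm F V) (hB : B.IsSymm)
    (hnd : B.Nondegenerate) (R W : Submodule F V) (hRW : R ≤ W)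
    (hdeg : ∃ r ∈ R, r ≠ 0 ∧ ∀ w ∈ W, B w r = 0) :
    pCore 2 (isomGroup B R W) = ⊥ ∧ DadeHolds 2 (isomGroup B R W) := by
  have : Fact (Nat.Prime 2) := ⟨Nat.prime_two⟩
  have hfin : Finite (V ≃ₗ[F] V) := finite_linearEquiv
  obtain ⟨r, hr, hr0, hrW⟩ := hdeg
  have hcore : pCore 2 (isomGroup B R W) = ⊥ := by
    rw [pCore, sSup_eq_bot]
    rintro Q ⟨hQn, hQ⟩
    exact isom_core hB h2 hnd hRW hr hr0 hrW Q hQn hQ
  refine ⟨hcore, ?_⟩
  apply dadeHolds_of_good _ hcore
  intro 𝔐 h𝔐 hmem𝔐
  have := h𝔐.isPrime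
  exact good_isom hB h2 hnd 𝔐 hmem𝔐 _ R W hRW rfl

end Pool.Agent.Kept.MP_3f89b9_al.OrthogonalStabilisers
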