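import Mathlib
import Pool.Agent.DP.Pow
import Pool.Agent.DP.Col
import Pool.Agent.DP.AllB

/-! The alternating sums of Dade's conjecture for `G ^ Ω ⋊ R`. -/

namespace Pool.Agent.Results.MP_3f89b9_al.PermutationExtensions

open Pool.Agent.DP Pool.Agent.Lib_helper13.Dade

/-- Let `ℓ` be a prime and `G ≠ 1` a finite group with `O_ℓ(G) = 1` which satisfies Dade's
conjecture for `ℓ`. Let the finite group `R` act on the finite set `Ω` and let `Γ = G ^ Ω ⋊ R`.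
(1) If an irreducible character `χ` of `Γ` lies over a product of irreducible characters `c i` of
`G`, at least one of which has positive `ℓ`-defect, then the alternating sums for `Γ` and the block
of `χ` are `0`. (2) If all `c i` have `ℓ`-defect zero and `R_c` is the stabilizer of the colouring
`c` in `R`, then the irreducible characters `η` of `R_c` correspond to the irreducible characters
`Θ η` of `Γ` over the product of the `c i`, and the alternating sums for `Γ` and the block of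
`Θ η` are those of `R_c` and the block of `η` if `|O_ℓ(R_c)| = |O_ℓ(Γ)|` and `0` otherwise.
(3) Dade's conjecture holds for `Γ` if and only if it holds for all these `R_c` with
`|O_ℓ(R_c)| = |O_ℓ(Γ)|`. (4) It holds for `Γ` if `R` has a normal Sylow `ℓ`-subgroup. -/
theorem result (ℓ : ℕ) (hℓ : ℓ.Prime) (G : Type) [Group G] [Finite G] [Nontrivial G]
    (hcore : pCore ℓ G = ⊥) (hG : DadeHolds ℓ G) (R Ω : Type) [Group R] [Finite R] [Fintype Ω]
    [MulAction R Ω] :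
    (∀ c : Ω → G → ℂ, (∀ i, IsIrrChar (c i)) → (∃ i, ¬ HasDefect ℓ (c i) 0) →
      ∀ χ : (Ω → G) ⋊[pAct R Ω G] R → ℂ, IsIrrChar χ → LiesOver χ c →
      ∀ 𝔐 : Ideal (integralClosure ℤ ℂ), 𝔐.IsMaximal → (ℓ : integralClosure ℤ ℂ) ∈ 𝔐 →
      ∀ d, dadeSum 𝔐 ℓ χ d = 0) ∧
    (∀ c : Ω → G → ℂ, (∀ i, IsIrrChar (c i) ∧ HasDefect ℓ (c i) 0) →
      ∃ Θ : (colStab R c → ℂ) → ((Ω → G) ⋊[pAct R Ω G] R → ℂ),
        (∀ η, IsIrrChar η → IsIrrChar (Θ η) ∧ LiesOver (Θ η) c ∧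
          Θ η 1 * Nat.card (colStab R c) = Nat.card R * (∏ i, c i 1) * η 1) ∧
        (∀ η η', IsIrrChar η → IsIrrChar η' → Θ η = Θ η' → η = η') ∧
        (∀ χ, IsIrrChar χ → LiesOver χ c → ∃ η, IsIrrChar η ∧ Θ η = χ) ∧
        ∀ 𝔐 : Ideal (integralClosure ℤ ℂ), 𝔐.IsMaximal → (ℓ : integralClosure ℤ ℂ) ∈ 𝔐 →
          (∀ η η', IsIrrChar η → IsIrrChar η' →
            (SameBlock 𝔐 (Θ η) (Θ η') ↔ SameBlock 𝔐 η η')) ∧
          ∀ η, IsIrrChar η → ∀ d, dadeSum 𝔐 ℓ (Θ η) d =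
            if Nat.card (pCore ℓ (colStab R c)) = Nat.card (pCore ℓ ((Ω → G) ⋊[pAct R Ω G] R))
              then dadeSum 𝔐 ℓ η d else 0) ∧
    (DadeHolds ℓ ((Ω → G) ⋊[pAct R Ω G] R) ↔
      ∀ c : Ω → G → ℂ, (∀ i, IsIrrChar (c i) ∧ HasDefect ℓ (c i) 0) →
        Nat.card (pCore ℓ (colStab R c)) = Nat.card (pCore ℓ ((Ω → G) ⋊[pAct R Ω G] R)) →
          DadeHolds ℓ (colStab R c)) ∧
    ((∃ P : Subgroup R, P.Normal ∧ IsPGroup ℓ P ∧ ¬ ℓ ∣ P.index) →
      DadeHolds ℓ ((Ω → G) ⋊[pAct R Ω G] R)) :=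
  mainB ℓ hℓ G hcore hG R Ω

end Pool.Agent.Results.MP_3f89b9_al.PermutationExtensions
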