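import Mathlib
import Pool.Agent.DPN.FinalN

/-! The proper quotients of a minimal counterexample to Dade's conjecture. -/

namespace Pool.Agent.Results.MP_3f89b9_al.ProperQuotients

open Pool.Agent.Lib_helper13.Dade

/-- Let `ℓ` be a prime and `X` a finite group with `O_ℓ(X) ≤ Z(X)` for which Dade's conjecture for
`ℓ` fails, while it holds for all finite groups `Y` with `O_ℓ(Y) ≤ Z(Y)` and
`|Y : Z(Y)| < |X : Z(X)|` (`X` is a minimal counterexample). Then for every normal subgroup `N` of
`X` with `Z(X) < N` the quotient `X / N` has a normal Sylow `ℓ`-subgroup `P / N`, and `X / P` is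
nilpotent and generated by two elements; and two normal subgroups of `X` which properly contain
`Z(X)` have an intersection which properly contains `Z(X)`, so that `X / Z(X)` has a unique minimal
normal subgroup. -/
theorem result (ℓ : ℕ) (hℓ : ℓ.Prime) (X : Type) [Group X] [Finite X]
    (hcore : pCore ℓ X ≤ Subgroup.center X) (hX : ¬ DadeHolds ℓ X)
    (hmin : ∀ (Y : Type) [Group Y] [Finite Y], pCore ℓ Y ≤ Subgroup.center Y →
      (Subgroup.center Y).index < (Subgroup.center X).index → DadeHolds ℓ Y) :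
    (∀ N : Subgroup X, N.Normal → Subgroup.center X < N →
      ∃ P : Subgroup X, ∃ _ : P.Normal, N ≤ P ∧ (∀ x ∈ P, ∃ k : ℕ, x ^ ℓ ^ k ∈ N) ∧
        ¬ ℓ ∣ P.index ∧ Group.IsNilpotent (X ⧸ P) ∧
        ∃ x y : X, Subgroup.closure {x, y} ⊔ P = ⊤) ∧
    ∀ N N' : Subgroup X, N.Normal → N'.Normal → Subgroup.center X < N →
      Subgroup.center X < N' → Subgroup.center X < N ⊓ N' :=
  Pool.Agent.DPN.mainN ℓ hℓ X hcore hX hmin

end Pool.Agent.Results.MP_3f89b9_al.ProperQuotients
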