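import Mathlib
import Pool.Agent.DPB.AllB

/-! Dade's conjecture, without any hypothesis on other groups, for the blocks of a finite group `X`
with a normal subgroup `G ^ Ω`, where the order of `G` is not divisible by `ℓ ^ 2` and `X` induces
permutations and a cyclic group of outer automorphisms of order prime to `ℓ`. -/

namespace Pool.Agent.Kept.MP_3f89b9_UnconditionalPowers

open Pool.Agent.DP Pool.Agent.Lib_helper13.Dade

/-- Let `ℓ` be a prime and `G` a finite group with `Z(G) = 1`, `O_ℓ(G) = 1` and `ℓ ^ 2` not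
dividing `|G|`. Let `A = Inn(G)⟨a⟩ ≤ Aut(G)` with `ℓ` not dividing `|A : Inn(G)|`. Let `X` be a
finite group with a normal subgroup `G ^ Ω` (embedded by `e`) on which every element of `X` acts
as a permutation of the coordinates followed by elements of `A` in the coordinates. If the
irreducible character `χ` of `X` lies over the product of the irreducible characters `ξ i` of `G`
(their inner product on `G ^ Ω` is not zero), at least one of which has positive `ℓ`-defect, then
the alternating sums of Dade's conjecture for `X` and the block of `χ` are `0`. -/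
theorem result (ℓ : ℕ) (hℓ : ℓ.Prime) (G : Type) [Group G] [Finite G]
    (hcen : Subgroup.center G = ⊥) (hcore : pCore ℓ G = ⊥) (hG : ¬ ℓ ^ 2 ∣ Nat.card G)
    (a : MulAut G) (A : Subgroup (MulAut G))
    (hA : A = (MulAut.conj : G →* MulAut G).range ⊔ Subgroup.zpowers a)
    (hcop : ¬ ℓ ∣ (MulAut.conj : G →* MulAut G).range.relIndex A)
    (X Ω : Type) [Group X] [Finite X] [Fintype Ω] (e : (Ω → G) →* X)
    (he : Function.Injective e)
    (hact : ∀ y : X, ∃ (s : Equiv.Perm Ω) (α : Ω → MulAut G), (∀ i, α i ∈ A) ∧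
      ∀ x : Ω → G, y * e x * y⁻¹ = e (fun i => α i (x (s i))))
    (𝔐 : Ideal (integralClosure ℤ ℂ)) (h𝔐 : 𝔐.IsMaximal)
    (hℓ𝔐 : (ℓ : integralClosure ℤ ℂ) ∈ 𝔐) (ξ : Ω → G → ℂ) (hξ : ∀ i, IsIrrChar (ξ i))
    (w : Ω) (hw : ¬ HasDefect ℓ (ξ w) 0) (χ : X → ℂ) (hχ : IsIrrChar χ)
    (hover : ∑ᶠ x : Ω → G, χ (e x) * ∏ i, ξ i (x i)⁻¹ ≠ 0) (d : ℕ) : dadeSum 𝔐 ℓ χ d = 0 :=
  Pool.Agent.DPB.mainU ℓ hℓ G hcen hcore hG a A hA hcop X Ω e he hact 𝔐 h𝔐 hℓ𝔐 ξ hξ w hw χ hχ
    hover d

end Pool.Agent.Kept.MP_3f89b9_UnconditionalPowers
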