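import Mathlib
import Pool.Agent.DP.AllQ
import Pool.Agent.Lib_helper13.DadeDefs
import Pool.Agent.Lib_helper13.AlgGood

/-! Dade's conjecture for the blocks of a finite group `X` with a normal subgroup `G ^ Ω`, where `G`
is the group of units congruent to `1` modulo a left ideal of a finite semisimple algebra over a
field with `q` elements, `ℓ` a prime dividing `q - 1`. No unproved hypothesis. -/

namespace Pool.Agent.Kept.MP_3f89b9_UnitGroupPowers

open Pool.Agent.DP Pool.Agent.Lib_helper13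
open Pool.Agent.Lib_helper13.Dade (pCore DadeHolds dadeSum IsIrrChar)

/-- The group of the units `u` of the ring `A` with `u - 1 ∈ I`, where `I` is a left ideal. -/
def congrUnits {A : Type*} [Ring A] (I : Ideal A) : Subgroup Aˣ where
  carrier := {u | (u : A) - 1 ∈ I}
  one_mem' := by simp
  mul_mem' := by
    intro u v hu hv
    have h : ((u * v : Aˣ) : A) - 1 = (u : A) * ((v : A) - 1) + ((u : A) - 1) := by
      push_cast
      noncomm_ring
    rw [Set.mem_ofPred_eq, h]
    exact I.add_mem (I.mul_mem_left _ hv) hu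
  inv_mem' := by
    intro u hu
    have h : ((u⁻¹ : Aˣ) : A) - 1 = (-((u⁻¹ : Aˣ) : A)) * ((u : A) - 1) := by
      rw [mul_sub, neg_mul, Units.inv_mul, mul_one]
      noncomm_ring
    rw [Set.mem_ofPred_eq, h]
    exact I.mul_mem_left _ hu

/-- The case of the group itself. -/
theorem base (ℓ : ℕ) (hℓ : ℓ.Prime) (F : Type*) [Field F] [Finite F]
    (hF : ℓ ∣ Nat.card F - 1) (A : Type*) [Ring A] [Algebra F A] [Finite A] [IsSemisimpleRing A]
    (I : Ideal A) (hI : ∀ x : A, (∀ a b : A, a * x * b ∈ I) → x = 0) :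
    pCore ℓ (congrUnits I) = ⊥ ∧ DadeHolds ℓ (congrUnits I) := by
  have : Fact ℓ.Prime := ⟨hℓ⟩
  obtain ⟨e, he, hspan⟩ := IsSemisimpleRing.ideal_eq_span_idempotent I
  have he' : e * e = e := he
  have hmem : ∀ x, x ∈ I ↔ x * e = x := by
    intro x
    rw [hspan]
    constructor
    · intro hx
      obtain ⟨a, ha⟩ := Submodule.mem_span_singleton.mp hx
      rw [smul_eq_mul] at ha
      rw [← ha, mul_assoc, he']
    · intro hx
      exact Submodule.mem_span_singleton.mpr ⟨x, hx⟩
  have hG : congrUnits I = Gam 1 e := by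
    ext u
    rw [mem_Gam, one_mul]
    change (u : A) - 1 ∈ I ↔ _
    rw [hmem]
    exact ⟨fun h => ⟨rfl, h⟩, fun h => h.2⟩
  have hA : ¬ ℓ ∣ Nat.card A := by
    intro hdvd
    rw [Module.natCard_eq_pow_finrank (K := F) (V := A)] at hdvd
    have h4 : ℓ ∣ Nat.card F := hℓ.dvd_of_dvd_pow hdvd
    have h5 : 1 ≤ Nat.card F := Nat.card_pos
    have h6 : ℓ ∣ 1 := by
      have := Nat.dvd_sub h4 hF
      rwa [Nat.sub_sub_self h5] at this
    exact hℓ.one_lt.ne' (Nat.dvd_one.mp h6)
  rw [hG]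
  have hcore : pCore ℓ (Gam 1 e) = ⊥ := by
    rw [pCore, sSup_eq_bot]
    rintro Q ⟨hQn, hQ⟩
    apply Gam_core hA he' _ Q hQn hQ
    intro x hx
    apply hI x
    intro a b
    rw [hmem]
    exact hx a b
  refine ⟨hcore, ?_⟩
  apply dadeHolds_of_good _ hcore
  intro 𝔐 h𝔐 hmem𝔐
  have := h𝔐.isPrime
  exact good_Gam 𝔐 hmem𝔐 hF _ 1 e he' (one_mul e) rfl

/-- Let `F` be a finite field and `ℓ` a prime dividing `|F| - 1`. Let `A` be a finite semisimple
`F`-algebra, `I` a left ideal of `A` which contains no two-sided ideal other than `0`, and `G` the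
group of the units `u` of `A` with `u - 1 ∈ I`. Let `X` be any finite group with a normal subgroup
`G ^ Ω` (embedded by `e`) on which every element of `X` acts as a permutation of the coordinates
followed by an inner automorphism. If the irreducible character `χ` of `X` lies over the product
of the irreducible characters `ξ i` of `G`, at least one of which has positive `ℓ`-defect, then all
alternating sums of Dade's conjecture for `X` and the block of `χ` are `0`. -/
theorem result (ℓ : ℕ) (hℓ : ℓ.Prime) (F : Type) [Field F] [Finite F]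
    (hF : ℓ ∣ Nat.card F - 1) (A : Type) [Ring A] [Algebra F A] [Finite A] [IsSemisimpleRing A]
    (I : Ideal A) (hI : ∀ x : A, (∀ a b : A, a * x * b ∈ I) → x = 0)
    (X Ω : Type) [Group X] [Finite X] [Fintype Ω] (e : (Ω → congrUnits I) →* X)
    (he : Function.Injective e)
    (hact : ∀ y : X, ∃ (s : Equiv.Perm Ω) (n : Ω → congrUnits I), ∀ x : Ω → congrUnits I,
      y * e x * y⁻¹ = e (fun i => n i * x (s i) * (n i)⁻¹))
    (𝔐 : Ideal (integralClosure ℤ ℂ)) (h𝔐 : 𝔐.IsMaximal)
    (hℓ𝔐 : (ℓ : integralClosure ℤ ℂ) ∈ 𝔐) (ξ : Ω → congrUnits I → ℂ)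
    (hξ : ∀ i, IsIrrChar (ξ i)) (w : Ω) (hw : ¬ Dade.HasDefect ℓ (ξ w) 0) (χ : X → ℂ)
    (hχ : IsIrrChar χ)
    (hover : ∑ᶠ x : Ω → congrUnits I, χ (e x) * ∏ i, ξ i (x i)⁻¹ ≠ 0) (d : ℕ) :
    dadeSum 𝔐 ℓ χ d = 0 := by
  obtain ⟨hcore, hG⟩ := base ℓ hℓ F hF A I hI
  exact mainQ ℓ hℓ (congrUnits I) hcore hG X Ω e he hact 𝔐 h𝔐 hℓ𝔐 ξ hξ w hw χ hχ hover d

end Pool.Agent.Kept.MP_3f89b9_UnitGroupPowers
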