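import Pool.Agent.Lib_helper70.Berry.Factor

/-!
# Random Helmholtz solutions that are factors of a weakly mixing Gaussian process

Every Benjamini-Schramm limit of Laplace eigenfunctions (in the scaling of Berry's random wave
conjecture) is the law of a stationary random field `F` on `ℝ^d` with `Δ F = F` (nonnegative
Laplacian), of isotropic law and with finite variance.  We show: if such a field is a factor (an
equivariant measurable function, however nonlinear) of a weakly mixing stationary Gaussian process,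
then it is the Gaussian random wave, up to a constant.  In dimension at most three the isotropy is
not needed for Gaussianity.
-/

open MeasureTheory ProbabilityTheory Filter Topology InnerProductSpace Laplacian
open Pool.Agent.Lib_helper70.Berry

namespace Pool.Agent.Results.MP_4fa179_mp.GaussianFactors

theorem result (d : ℕ) {ι Ω : Type*} [MeasurableSpace Ω] (P : Measure Ω)
    [IsProbabilityMeasure P]
    -- a centred stationary Gaussian process `G = (G_j)_{j ∈ ι}` on `ℝ^d`
    (G : ι → EuclideanSpace ℝ (Fin d) → Ω → ℝ)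
    (hGm : ∀ j x, Measurable (G j x))
    (hG : IsGaussianProcess (fun (p : ι × EuclideanSpace ℝ (Fin d)) ω => G p.1 p.2 ω) P)
    (hG0 : ∀ j x, ∫ ω, G j x ω ∂P = 0)
    (hGs : ∀ j k x y z,
      ∫ ω, G j (x + z) ω * G k (y + z) ω ∂P = ∫ ω, G j x ω * G k y ω ∂P)
    -- mean square continuous
    (hGc : ∀ j, ContinuousAt (fun x => ∫ ω, G j 0 ω * G j x ω ∂P) 0)
    -- weakly mixing: the squares of the covariance functions have mean value zero
    (hGe : ∀ j, Tendsto (fun R : ℝ => ⨍ x in Metric.ball (0 : EuclideanSpace ℝ (Fin d)) R,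
      (∫ ω, G j 0 ω * G j x ω ∂P) ^ 2) atTop (𝓝 0))
    -- a square integrable random solution of the Helmholtz equation, factor of `G`
    (F : EuclideanSpace ℝ (Fin d) → Ω → ℝ)
    (hFm : ∀ x, Measurable (F x))
    (Ψ : (ι → EuclideanSpace ℝ (Fin d) → ℝ) → ℝ) (hΨ : Measurable Ψ)
    (hFG : ∀ x, ∀ᵐ ω ∂P, F x ω = Ψ (fun j y => G j (x + y) ω))
    (hF2 : MemLp (F 0) 2 P)
    (hHelm : ∀ᵐ ω ∂P, ContDiff ℝ 2 (fun x => F x ω) ∧
      ∀ x, (Δ (fun y => F y ω)) x = -F x ω)
    -- either the dimension is at most three or the covariance of `F` is isotropic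
    (hd : d ≤ 3 ∨ ∀ (R : EuclideanSpace ℝ (Fin d) ≃ₗᵢ[ℝ] EuclideanSpace ℝ (Fin d))
        (x : EuclideanSpace ℝ (Fin d)),
        ∫ ω, F 0 ω * F (R x) ω ∂P = ∫ ω, F 0 ω * F x ω ∂P) :
    -- `F` is a centred Gaussian process,
    IsGaussianProcess F P ∧ (∀ x, ∫ ω, F x ω ∂P = 0) ∧
    -- its values are mean square limits of finite linear combinations of values of `G`,
    (∀ x, ∀ ε : ℝ, 0 < ε → ∃ c : ι × EuclideanSpace ℝ (Fin d) →₀ ℝ,
      ∫ ω, (F x ω - c.sum fun p a => a * G p.1 p.2 ω) ^ 2 ∂P < ε) ∧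
    -- and if the covariance of `F` is isotropic, then it is that of Berry's random wave.
    ((∀ (R : EuclideanSpace ℝ (Fin d) ≃ₗᵢ[ℝ] EuclideanSpace ℝ (Fin d))
        (x : EuclideanSpace ℝ (Fin d)),
        ∫ ω, F 0 ω * F (R x) ω ∂P = ∫ ω, F 0 ω * F x ω ∂P) →
      ∀ x y, ∫ ω, F x ω * F y ω ∂P = (∫ ω, F 0 ω ^ 2 ∂P) * waveK (y - x)) := by
  have hgh := GH_of_process hGm hG hG0 hGs hGc hGe
  set Ψ' : (ι × EuclideanSpace ℝ (Fin d) → ℝ) → ℝ := fun g => Ψ (fun j y => g (j, y)) with hΨ'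
  have hΨm : Measurable Ψ' := by
    refine hΨ.comp ?_
    exact measurable_pi_lambda _ fun j => measurable_pi_lambda _ fun y => measurable_pi_apply _
  have hD : FactorData P G F Ψ' := by
    refine ⟨hGm, hgh, hFm, hΨm, fun x => ?_, hF2⟩
    filter_upwards [hFG x] with ω hω
    rw [hω]
    simp only [hΨ', Tsh, tau, path]
    congr 1
    funext j y
    rw [add_comm]
  have hdim : Module.finrank ℝ (EuclideanSpace ℝ (Fin d)) ≤ 3 ∨
      ∀ (R : EuclideanSpace ℝ (Fin d) ≃ₗᵢ[ℝ] EuclideanSpace ℝ (Fin d))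
        (x : EuclideanSpace ℝ (Fin d)),
        ∫ ω, F 0 ω * F (R x) ω ∂P = ∫ ω, F 0 ω * F x ω ∂P := by
    rcases hd with hd | hd
    · left; simpa using hd
    · right; exact hd
  have happ : ∀ (x : EuclideanSpace ℝ (Fin d)) (ε : ℝ), 0 < ε →
      ∃ ℓ : ι × EuclideanSpace ℝ (Fin d) →₀ ℝ,
      ∫ ω, (F x ω - pair ℓ (path G ω)) ^ 2 ∂P < ε :=
    fun x ε hε => hD.linear_approx hdim hHelm x hε
  exact ⟨hD.isGaussianProcess happ, hD.integral_eq_zero happ, happ,
    fun hiso x y => hD.isotropic hHelm hiso x y⟩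

end Pool.Agent.Results.MP_4fa179_mp.GaussianFactors
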