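import Pool.Agent.QJ.AllB
import Pool.Agent.QJ.AllC

/-!
# Moments of order at most three of quantum ergodic eigenfunctions on closed surfaces

Let `Γ ⊂ SL(2, ℝ)` be countable with compact quotient `Γ \ ℍ` (fundamental domain `D`), let `ρ` be a
smooth `Γ`-invariant function on `ℍ`, and let `φₙ` be a quantum ergodic sequence of smooth real
`Γ`-invariant Laplace eigenfunctions for the metric `e^{2ρ} (dx² + dy²) / y²`, with eigenvalues
`mₙ² → ∞`.  Nothing is assumed on the `Lᵖ` norms of `φₙ` for `p > 2`.  Let `Fₙ` be the local wave of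
`φₙ` in a random frame at a random point, on the scale of the wavelength.  Then all the moments of
order at most three of `Fₙ` converge to those of the isotropic Gaussian wave, and so do the moments of
order three of the derivatives of `Fₙ` at the origin.
-/

open MeasureTheory UpperHalfPlane MatrixGroups Berry Filter Topology
open scoped ContDiff

theorem Pool.Agent.Results.MP_4fa179_mp.QuantumErgodicThirdOrder.result
    (Γ : Subgroup SL(2, ℝ)) [Countable Γ] (D : Set ℍ) (hDm : MeasurableSet D)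
    (hD : IsFundamentalDomain Γ D (volume : Measure ℍ))
    (hK : ∃ K : Set ℍ, IsCompact K ∧ ∀ z, ∃ γ ∈ Γ, γ • z ∈ K)
    (ρ : ℍ → ℝ) (hρ : ContDiffOn ℝ ∞ (fun w : ℂ => ρ (ofComplex w)) {w | 0 < w.im})
    (hρΓ : ∀ γ ∈ Γ, ∀ z, ρ (γ • z) = ρ z)
    (φ : ℕ → ℍ → ℝ) (m : ℕ → ℝ) (hφ : REigenSeq Γ ρ φ m)
    (hs : ∀ n, ContDiffOn ℝ ∞ (fun w : ℂ => φ n (ofComplex w)) {w | 0 < w.im})
    (hq : QE.QuantumErgodic ρ φ m) :
    (∀ x : ℂ, Tendsto (fun n => ∫ p, rWave ρ (φ n) (m n) x p ∂(rFrameProb ρ D)) atTop (𝓝 0)) ∧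
    (∀ x y : ℂ, Tendsto (fun n => ∫ p, rWave ρ (φ n) (m n) x p * rWave ρ (φ n) (m n) y p
      ∂(rFrameProb ρ D)) atTop (𝓝 (waveK (x - y)))) ∧
    (∀ x y z : ℂ, Tendsto (fun n => ∫ p, rWave ρ (φ n) (m n) x p * rWave ρ (φ n) (m n) y p
      * rWave ρ (φ n) (m n) z p ∂(rFrameProb ρ D)) atTop (𝓝 0)) ∧
    (∀ (k : Fin 3 → ℕ) (v : ∀ i, Fin (k i) → ℂ), Tendsto (fun n =>
      ∫ p, ∏ i, iteratedFDeriv ℝ (k i) (fun x => rWave ρ (φ n) (m n) x p) 0 (v i)
        ∂(rFrameProb ρ D)) atTop (𝓝 0)) := by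
  obtain ⟨h1, h2, h3⟩ := QJ.finP Γ D hDm hD hK ρ hρ hρΓ φ m hφ hs hq
  exact ⟨h1, h2, h3, (QJ.fin Γ D hDm hD hK ρ hρ hρΓ φ m hφ hs hq).2.2.1⟩
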