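import Mathlib
import Pool.Agent.Lib_helper82.PlaneF

/-!
# Non-simplex facets of 4-polytopes with two vertices in a plane

For every 4-polytope with `n` vertices and every 2-dimensional plane `Q` containing `n₁` of the
vertices, at most `24 n √n₁ + 200 n` of the non-simplex facets have two or more vertices in `Q`.
-/

namespace Pool.Agent.Results.MP_502e5d_co.PlaneBound

open Pool.Agent.Lib_helper82.Plane

/-- The space `ℝ⁴`. -/
abbrev E4 : Type := EuclideanSpace ℝ (Fin 4)

/-- A 4-polytope: the convex hull of a finite set of points affinely spanning `ℝ⁴`. -/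
def IsFourPolytope (P : Set E4) : Prop :=
  ∃ S : Set E4, S.Finite ∧ affineSpan ℝ S = ⊤ ∧ P = convexHull ℝ S

/-- The vertices of a polytope (its extreme points). -/
def vertices (P : Set E4) : Set E4 := P.extremePoints ℝ

/-- A facet of `P`: an exposed face of dimension 3. -/
def IsFacet (P F : Set E4) : Prop :=
  IsExposed ℝ P F ∧ Module.finrank ℝ (vectorSpan ℝ F) = 3

/-- The facets which are not simplices (the number of vertices is not 4). -/
def nonSimplexFacets (P : Set E4) : Set (Set E4) := {F | IsFacet P F ∧ (vertices F).encard ≠ 4}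

/-- A plane: a 2-dimensional affine subspace. -/
def IsPlane (Q : AffineSubspace ℝ E4) : Prop := Module.finrank ℝ Q.direction = 2

/-- The non-simplex facets with at least two vertices in `Q`. -/
def facetsMeeting (P : Set E4) (Q : AffineSubspace ℝ E4) : Set (Set E4) :=
  {F | F ∈ nonSimplexFacets P ∧ 2 ≤ (vertices F ∩ Q).encard}

theorem result (P : Set E4) (hP : IsFourPolytope P) (Q : AffineSubspace ℝ E4) (hQ : IsPlane Q)
    (n n₁ : ℕ) (hn : (vertices P).encard = n) (hn₁ : (vertices P ∩ Q).encard = n₁) :
    ∃ N : ℕ, (facetsMeeting P Q).encard = N ∧ (N : ℝ) ≤ 24 * n * √n₁ + 200 * n := by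
  obtain ⟨S, hS, hspan, hPS⟩ := hP
  have hdim : Module.finrank ℝ E4 = 4 := by simp
  obtain ⟨N, hN, hle⟩ := plane_bound hdim hS hspan hPS Q hQ n n₁ hn hn₁
  refine ⟨N, ?_, hle⟩
  rw [← hN]
  congr 1
  ext F
  simp only [facetsMeeting, nonSimplexFacets, IsFacet, vertices, Set.mem_ofPred_eq]
  tauto

end Pool.Agent.Results.MP_502e5d_co.PlaneBound
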