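import Pool.Agent.Lib_helper94.BShift.Final

/-!
# Every bilateral weighted shift has a nontrivial hyperinvariant subspace
-/

set_option autoImplicit false

namespace Pool.Agent.Kept.MP_5ac32f_BilateralShifts

/-- `T` has a closed subspace, other than `0` and the whole space, which is invariant under every
bounded operator commuting with `T`. -/
def HasHyperinvariantSubspace {E : Type*} [NormedAddCommGroup E] [NormedSpace ℂ E]
    (T : E →L[ℂ] E) : Prop :=
  ∃ M : Submodule ℂ E, IsClosed (M : Set E) ∧ M ≠ ⊥ ∧ M ≠ ⊤ ∧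
    ∀ A : E →L[ℂ] E, A * T = T * A → ∀ x ∈ M, A x ∈ M

/-- `i n : H → X` and `π n : X → H` are uniformly bounded, `π m ∘ i n` is the identity for `m = n`
and `0` for `m ≠ n`. For example the coordinate embeddings and coordinate projections of
`X = ℓ^p(ℤ; H)`, `1 ≤ p ≤ ∞`, or of `c_0(ℤ; H)`. -/
def IsCoordinates {X H : Type*} [NormedAddCommGroup X] [NormedSpace ℂ X]
    [NormedAddCommGroup H] [NormedSpace ℂ H]
    (i : ℤ → (H →L[ℂ] X)) (π : ℤ → (X →L[ℂ] H)) : Prop :=
  (∃ C : ℝ, ∀ n, ‖i n‖ ≤ C ∧ ‖π n‖ ≤ C) ∧ ∀ m n x, π m (i n x) = if m = n then x else 0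

/-- `T` acts on the coordinates `i n`, `π n` as the bilateral shift with operator weights `W n`:
`T ∘ i n = i (n + 1) ∘ W n` and `π (n + 1) ∘ T = W n ∘ π n`. -/
def ActsAsShift {X H : Type*} [NormedAddCommGroup X] [NormedSpace ℂ X]
    [NormedAddCommGroup H] [NormedSpace ℂ H] (T : X →L[ℂ] X)
    (i : ℤ → (H →L[ℂ] X)) (π : ℤ → (X →L[ℂ] H)) (W : ℤ → (H →L[ℂ] H)) : Prop :=
  ∀ n, (∀ x, T (i n x) = i (n + 1) (W n x)) ∧ ∀ x, π (n + 1) (T x) = W n (π n x)

/-- Let `T` be a nonzero bounded operator on a complex Banach space `X` which acts as a bilateral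
shift on coordinates with values in a finite dimensional space `H`, with arbitrary weights
`W n : H → H`. Then `T` has a nontrivial hyperinvariant subspace. -/
theorem result.{u, v} :
    ∀ (X : Type u) [NormedAddCommGroup X] [NormedSpace ℂ X] [CompleteSpace X]
      (H : Type v) [NormedAddCommGroup H] [NormedSpace ℂ H] [FiniteDimensional ℂ H] [Nontrivial H]
      (T : X →L[ℂ] X) (i : ℤ → (H →L[ℂ] X)) (π : ℤ → (X →L[ℂ] H)) (W : ℤ → (H →L[ℂ] H)),
      IsCoordinates i π → ActsAsShift T i π W → T ≠ 0 → HasHyperinvariantSubspace T := by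
  intro X _ _ _ H _ _ _ _ T i π W hc hs hT0
  obtain ⟨⟨C, hC⟩, hd⟩ := hc
  refine Pool.Agent.BShift.final_block X H T i π W C (fun n => (hC n).1) (fun n => (hC n).2)
    (fun n x => by rw [hd, if_pos rfl]) (fun m n hmn x => by rw [hd, if_neg hmn])
    (fun n => (hs n).1) (fun n => (hs n).2) hT0

end Pool.Agent.Kept.MP_5ac32f_BilateralShifts
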