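import Pool.Agent.AFH.Fin

/-!
# Alternating multihead finite automata and deterministic multihead pushdown automata

One additional head suffices to simulate a two-way alternating `k`-head finite automaton, in
particular a two-way nondeterministic `k`-head finite automaton, by a two-way deterministic
pushdown automaton.
-/

namespace Pool.Agent.Results.MP_5e85fc_lc.AlternatingHeads

open Pool.Agent.AFH Pool.Agent.Heads

/-- Every language of a two-way alternating finite automaton with `k` heads, in particular every
language of a two-way nondeterministic finite automaton with `k` heads, is accepted by a two-way
deterministic pushdown automaton with `k + 1` heads. -/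
theorem result :
    (∀ (α : Type) (k : ℕ) (M : AFA α k), ∃ P : PDA α (k + 1), P.Det ∧ P.lang = M.lang) ∧
    (∀ (α : Type) (k : ℕ) (M : FA α k), ∃ P : PDA α (k + 1), P.Det ∧ P.lang = M.lang) :=
  ⟨alternating, finiteAut⟩

end Pool.Agent.Results.MP_5e85fc_lc.AlternatingHeads
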