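import Pool.Agent.CubeRank.AvgFinal

/-!
# The average rank of `X³ + Y³ = A` in the family of all `A` with given prime factors
-/

set_option autoImplicit false

namespace Pool.Agent.Results.MP_8e0b0b_nt.InertPrimesAverage

/-- The curve `y² = x³ - 432 A²`; it is the curve `X³ + Y³ = A` in the coordinates
`x = 12 A / (X + Y)`, `y = 36 A (X - Y) / (X + Y)`. -/
def C (A : ℤ) : WeierstrassCurve ℚ where
  a₁ := 0
  a₂ := 0
  a₃ := 0
  a₄ := 0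
  a₆ := -432 * (A : ℚ) ^ 2

/-- The group `C_A(ℚ)` is generated by at most `n` points. -/
def RankLE (A : ℤ) (n : ℕ) : Prop :=
  ∃ s : Finset (C A).toAffine.Point, s.card ≤ n ∧
    AddSubgroup.closure (s : Set (C A).toAffine.Point) = ⊤

/-- `r(A)`, the least size of a generating set of `C_A(ℚ)`. -/
noncomputable def r (A : ℤ) : ℕ := sInf {n : ℕ | RankLE A n}

/-- Let `q i` (`i : Fin k`, `k ≥ 2`) be distinct primes congruent to 2 modulo 3, `t ≥ 1` of them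
not congruent to 8 modulo 9, and `B(e) = ∏ i, q i ^ e i` for the `2 ^ k` vectors `e` of exponents
`e i ∈ {1, 2}`. The groups of rational points of the curves with `A = B(e), 3 B(e), 9 B(e)` are
finitely generated and
`∑ e, 4 ^ (r(B(e)) + 1)`, `∑ e, 4 ^ r(3 B(e))`, `∑ e, 4 ^ r(9 B(e))` are `≤ 3 * 8 ^ k / 2 ^ ⌈t/2⌉`. -/
theorem result (k : ℕ) (hk : 2 ≤ k) (q : Fin k → ℕ) (hq : ∀ i, (q i).Prime)
    (h3 : ∀ i, q i % 3 = 2) (hinj : Function.Injective q) (hex : ∃ i, q i % 9 ≠ 8) :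
    (∀ e : Fin k → ℕ, (∀ i, e i = 1 ∨ e i = 2) →
      RankLE (∏ i, (q i : ℤ) ^ e i) (r (∏ i, (q i : ℤ) ^ e i)) ∧
      RankLE (3 * ∏ i, (q i : ℤ) ^ e i) (r (3 * ∏ i, (q i : ℤ) ^ e i)) ∧
      RankLE (9 * ∏ i, (q i : ℤ) ^ e i) (r (9 * ∏ i, (q i : ℤ) ^ e i))) ∧
    2 ^ (((Finset.univ.filter (fun i => q i % 9 ≠ 8)).card + 1) / 2) *
      ∑ e ∈ Fintype.piFinset (fun _ : Fin k => ({1, 2} : Finset ℕ)),
        4 ^ (r (∏ i, (q i : ℤ) ^ e i) + 1) ≤ 3 * 8 ^ k ∧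
    2 ^ (((Finset.univ.filter (fun i => q i % 9 ≠ 8)).card + 1) / 2) *
      ∑ e ∈ Fintype.piFinset (fun _ : Fin k => ({1, 2} : Finset ℕ)),
        4 ^ r (3 * ∏ i, (q i : ℤ) ^ e i) ≤ 3 * 8 ^ k ∧
    2 ^ (((Finset.univ.filter (fun i => q i % 9 ≠ 8)).card + 1) / 2) *
      ∑ e ∈ Fintype.piFinset (fun _ : Fin k => ({1, 2} : Finset ℕ)),
        4 ^ r (9 * ∏ i, (q i : ℤ) ^ e i) ≤ 3 * 8 ^ k :=
  CubeRank.average hq h3 hinj hex hk

end Pool.Agent.Results.MP_8e0b0b_nt.InertPrimesAverage
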