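import Pool.Agent.CubeRank.GFinal

/-!
# Ranks of `X³ + Y³ = A` for `A` composed of 3 and primes congruent to 2 modulo 3
-/

set_option autoImplicit false

namespace Pool.Agent.Results.MP_8e0b0b_nt.InertPrimesRank

/-- The curve `y² = x³ - 432 A²`; it is the curve `X³ + Y³ = A` in the coordinates
`x = 12 A / (X + Y)`, `y = 36 A (X - Y) / (X + Y)`. -/
def C (A : ℤ) : WeierstrassCurve ℚ where
  a₁ := 0
  a₂ := 0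
  a₃ := 0
  a₄ := 0
  a₆ := -432 * (A : ℚ) ^ 2

/-- `r(A) ≤ n`: the group `C_A(ℚ)` is generated by at most `n` points. -/
def RankLE (A : ℤ) (n : ℕ) : Prop :=
  ∃ s : Finset (C A).toAffine.Point, s.card ≤ n ∧
    AddSubgroup.closure (s : Set (C A).toAffine.Point) = ⊤

/-- `e` and `e'` are neither equal nor complementary on the primes `q i ≢ 8 (mod 9)`. -/
def Apart {k : ℕ} (q e e' : Fin k → ℕ) : Prop :=
  (∃ i, q i % 9 ≠ 8 ∧ e i ≠ e' i) ∧ (∃ i, q i % 9 ≠ 8 ∧ e i + e' i ≠ 3)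

/-- Let `q i` (`i : Fin k`) be distinct primes congruent to 2 modulo 3 and
`B(e) = ∏ i, q i ^ e i` for exponents `e i ∈ {1, 2}`.

1. `r(B(e)) ≤ k - 3` for the `e` with `B(e) ≢ ±1 (mod 9)` (`k ≥ 3`),
2. `r(B(e)) ≤ k - 4` for the `e` with `B(e) ≡ ±1 (mod 9)` (`k ≥ 4`),
3. `r(3 B(e)) ≤ k - 2` for all `e` (`k ≥ 2`),
4. `r(9 B(e)) ≤ k - 3` for the `e` with `B(e) ≡ ±c (mod 9)` (`k ≥ 3`, any `c`),

in each of the cases with the possible exception of the `e` which are equal to a certain `e₀` or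
to `3 - e₀` on the primes `q i ≢ 8 (mod 9)`. In case 3 the `e` equal to `3 - e₀` on these primes
are no exception if `B(e) ≡ ±1 (mod 9)`. -/
theorem result (k : ℕ) (q : Fin k → ℕ) (hq : ∀ i, (q i).Prime) (h3 : ∀ i, q i % 3 = 2)
    (hinj : Function.Injective q) :
    (3 ≤ k → ∃ e₀ : Fin k → ℕ, ∀ e : Fin k → ℕ, (∀ i, e i = 1 ∨ e i = 2) →
      ¬ ((∏ i, (q i : ℤ) ^ e i) % 9 = 1 ∨ (∏ i, (q i : ℤ) ^ e i) % 9 = 8) →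
      Apart q e e₀ → RankLE (∏ i, (q i : ℤ) ^ e i) (k - 3)) ∧
    (4 ≤ k → ∃ e₀ : Fin k → ℕ, ∀ e : Fin k → ℕ, (∀ i, e i = 1 ∨ e i = 2) →
      ((∏ i, (q i : ℤ) ^ e i) % 9 = 1 ∨ (∏ i, (q i : ℤ) ^ e i) % 9 = 8) →
      Apart q e e₀ → RankLE (∏ i, (q i : ℤ) ^ e i) (k - 4)) ∧
    (2 ≤ k → ∃ e₀ : Fin k → ℕ, ∀ e : Fin k → ℕ, (∀ i, e i = 1 ∨ e i = 2) →
      (∃ i, q i % 9 ≠ 8 ∧ e i ≠ e₀ i) →
      ((∃ i, q i % 9 ≠ 8 ∧ e i + e₀ i ≠ 3) ∨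
        (∏ i, (q i : ℤ) ^ e i) % 9 = 1 ∨ (∏ i, (q i : ℤ) ^ e i) % 9 = 8) →
      RankLE (3 * ∏ i, (q i : ℤ) ^ e i) (k - 2)) ∧
    (3 ≤ k → ∀ c : ℤ, ∃ e₀ : Fin k → ℕ, ∀ e : Fin k → ℕ, (∀ i, e i = 1 ∨ e i = 2) →
      (9 ∣ (∏ i, (q i : ℤ) ^ e i) - c ∨ 9 ∣ (∏ i, (q i : ℤ) ^ e i) + c) →
      Apart q e e₀ → RankLE (9 * ∏ i, (q i : ℤ) ^ e i) (k - 3)) := by
  refine ⟨fun hk => CubeRank.rank_no hq h3 hinj hk, fun hk => CubeRank.rank_one hq h3 hinj hk,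
    fun hk => ?_, fun hk c => CubeRank.rank_nine hq h3 hinj hk c⟩
  obtain ⟨e₀, h0⟩ := CubeRank.rank_three hq h3 hinj hk
  exact ⟨e₀, fun e he h1 h2 => h0 e he trivial ⟨h1, h2⟩⟩

end Pool.Agent.Results.MP_8e0b0b_nt.InertPrimesRank
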