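import Pool.Agent.Lib_helper25.Final1

/-!
# The assembly map in degree zero is rationally injective

The source of the rationalised Farrell-Jones assembly map in degree `0` is the sum of `ℚ` (the
contribution of the trivial group) and of the groups
`H₁(Z_G C; ℚ) ⊗_{W_G C} Θ_C K_{-1}(ℤ[C]) ⊗ ℚ`, over the conjugacy classes of finite cyclic
subgroups `C` of `G`.  The space `Src G` is a presentation of this second summand by symbols
`sym p h g`, with `p` a prime, `h` a generator of `C` and `g` in the centraliser of `C`.  We
construct universal classes `κ n p` in `K₀(ℤ[C_n × ℤ])` such that sending `sym p h g` to the image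
of `κ n p` under the homomorphism `C_n × ℤ → G` defined by `h` and `g`, and `1 ∈ ℚ` to the class
of `ℤ[G]`, is a well defined linear map to `ℚ ⊗ K₀(ℤ[G])`, for every group `G`, and we bound its
kernel.  It is injective if the first homology of the centralisers of the finite cyclic subgroups
is finitely generated.
-/

universe u

open TensorProduct

namespace Pool.Agent.Results.MP_e40716_gt.RationalInjectivityZero

open Pool.Agent.Lib25

theorem result : ∃ κ : ∀ n : ℕ, ℕ → K0Z (CZ n), ∀ (G : Type u) [Group G],
    ∃ A : ℚ × Src G →ₗ[ℚ] QK0Z G, IsAssembly κ A ∧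
      (∀ y, A y = 0 → y.1 = 0 ∧ y.2 ∈ undetected G) ∧
      ((∀ h : G, IsOfFinOrder h → Group.FG (Abelianization (Subgroup.centralizer {h}))) →
        Function.Injective A) := by
  obtain ⟨κ, hκ⟩ := main0.{u}
  refine ⟨κ, fun G _ => ?_⟩
  obtain ⟨A, h1, h2, h3⟩ := hκ G
  refine ⟨A, ⟨h1, h2⟩, h3, fun hfg => ?_⟩
  have key : ∀ y, A y = 0 → y = 0 := by
    intro y hy
    obtain ⟨h4, h5⟩ := h3 y hy
    have hempty : {s : Src G | ∃ (p : ℕ) (h g : G), Valid p h g ∧
        ¬ ZDetects (Subgroup.centralizer {h}) ∧ s = sym p h g} = ∅ := by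
      rw [Set.eq_empty_iff_forall_notMem]
      rintro s ⟨p, h, g, hv, hZ, -⟩
      exact hZ (zDetects_of_fg _ (hfg h hv.fin))
    rw [hempty, Submodule.span_empty, Submodule.mem_bot] at h5
    exact Prod.ext h4 h5
  exact (injective_iff_map_eq_zero A).2 key

end Pool.Agent.Results.MP_e40716_gt.RationalInjectivityZero
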