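import Pool.Agent.PenroseConvex.All

/-!
The Penrose inequality for initial data foliated by parallel surfaces of a convex body.
-/

namespace Pool.Agent.Results.MP_ede089_mp.ParallelFoliation

open Pool.Agent.PenroseSph Pool.Agent.PenroseConvex

/-- Let `(g, h)` be initial data on the region `|x| > a` of three-space with
`g = N² d|x|² + γ`, where `N > 0` is an arbitrary smooth function and `γ` is, on the coordinate
sphere of radius `s`, the metric of the convex surface of three-space with support function
`u + ρ(s)` (so that the coordinate spheres are isometric to parallel surfaces of a convex body),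
and `h` an arbitrary smooth symmetric tensor. Assume asymptotic flatness, the dominant energy
condition, that every coordinate sphere is weakly trapped everywhere or untrapped everywhere with
`∫ h(n, ∇_S (tr_S h / H)) dA ≤ 0`, and that the data are two-ended or have a weakly trapped
coordinate sphere. Let `m` be the total mass. Then for some weakly trapped coordinate sphere, outside
of which all coordinate spheres are untrapped, `m ≥ sqrt (area / 16 π)`. -/
theorem result (a : ℝ) (u : E3 → ℝ) (ρ : ℝ → ℝ) (N : E3 → ℝ) (g h : TensorField)
    (hd : ParallelData a u ρ N g h) (hdec : DominantEnergy a g h)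
    (hfol : FoliationCondition a g h) (hin : InnerCondition a g h)
    (m : ℝ) (hm : IsTotalMass g m) :
    ∃ s : ℝ, a < s ∧ WeaklyTrapped g h s ∧ (∀ t : ℝ, s < t → Untrapped g h t) ∧
      Real.sqrt (sphereArea g s / (16 * Real.pi)) ≤ m :=
  final a u ρ N g h hd hdec hfol hin m hm

end Pool.Agent.Results.MP_ede089_mp.ParallelFoliation
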