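import Pool.Agent.PenroseRound.Area

/-!
The Penrose inequality for slices without symmetries of spacetimes without symmetries whose null
cones are round and shear-free.
-/

namespace Pool.Agent.Results.MP_ede089_mp.RoundSpacetimeSlices

open Pool.Agent.PenroseSph Pool.Agent.PenroseSlice Pool.Agent.PenroseRound

/-- Let `W × S²`, with metric `-F(u,v,ω) du dv + r(u,v)² dω²`, be a spacetime with `T_uu ≥ 0`,
`T_vv ≥ 0` and `T_uv ≥ 0`, in general without any symmetry, and let `x ↦ (U x, V x, x/|x|)` be a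
two-ended spacelike slice of it, without any symmetry either, asymptotically flat at `|x| → ∞`
with total mass `m` there. Then the slice meets some null cone, `{u = c}` or `{v = c}`, in a
surface `S = {R(ω) ω}` that every ray from the origin meets exactly once, and
`m ≥ sqrt (area(S) / 16 π)`. -/
theorem result (W : Set (ℝ × ℝ)) (F : ℝ → ℝ → E3 → ℝ) (r : ℝ → ℝ → ℝ) (U V : E3 → ℝ)
    (hS : RoundSpacetime W F r) (hT : IsTwoEndedSlice W F r U V)
    (m : ℝ) (hm : IsTotalMass (inducedMetric F r U V) m) :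
    ∃ (φ : E3 → ℝ) (c : ℝ) (R : Metric.sphere (0 : E3) 1 → ℝ), (φ = U ∨ φ = V) ∧ Continuous R ∧
      (∀ ω, 0 < R ω ∧ φ (R ω • (ω : E3)) = c ∧
        ∀ ρ : ℝ, 0 < ρ → φ (ρ • (ω : E3)) = c → ρ = R ω) ∧
      Real.sqrt (levelArea (inducedMetric F r U V) φ R / (16 * Real.pi)) ≤ m :=
  penrose_round hS hT hm

end Pool.Agent.Results.MP_ede089_mp.RoundSpacetimeSlices
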