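import Pool.Agent.Lib_helper18.ToricAsymp

/-!
# MP_fa3f7f_ag: the maximal number of steps of a minimal model program of a toric variety

A simplicial toric variety `X` of dimension `d` with `n = ρ + d` torus invariant prime divisors
`D i` (its class group has rank `ρ`) is given by the generators `v i` of its rays and by its fan.
For a divisor `D = ∑ a i • D i` consider all sequences of `N` steps (flips and contractions of
divisors) of the minimal model program for `D`.  The theorem says, for `d ≥ 3` and
`m = ⌊(d + 1) / 2⌋`:

* always `N ≤ upperBound d ρ = C(ρ+m-1, m) + C(ρ+m'-1, m')`, `m' = ⌊d/2⌋`, for all simplicial fans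
  (complete or not) and all real `a i`;
* there are examples with `N = lowerBound d ρ = C(ρ+m-2, m)` (`+ C(ρ+m-3, m)` if `d` is even), in
  which all varieties are projective, all steps are flips, the generators are integral, and
  `-1 < a i < 0`, so that `D = K + B` for the klt pair `(X, B)`, `B = ∑ (1 + a i) • D i`;
* for fixed `d` the quotient of the two bounds tends to `1` when `ρ` tends to infinity.

So the maximal number of steps is asymptotic to `ρ ^ m / m!` if `d` is odd and to `2 ρ ^ m / m!` if
`d` is even.

Upper bound.  Let `P` and `Q` be the sets of indices with positive and with negative intersection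
number in a step.  Piecewise linear coordinates with respect to the fans decrease the value of `D`,
so a cone destroyed by a step never comes back and a cone created by a step did not exist before.
Hence for two steps `s < i` the set `P_i` is not contained in `P_s ∪ Q_s`, and similarly for `Q` with
`i < s`.  The form `D` does not vanish on the relation of a step.  Therefore the forms
`D ^ (m - |P_i|) * ∏ x_j`, `j ∈ P_i`, for the steps with `|P_i| ≤ m`, restricted to the space of
relations between the `v i`, which has dimension `ρ`, form a triangular family, and there are at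
most as many of them as monomials of degree `m` in `ρ` variables (the use of the power of `D`, which
gives all sizes at once, is due to helper97).

Examples.  The generators are the points `(1, t, …, t ^ (d - 1))` for integers `t` with distinct
subset sums, and minus the sum of these points.  The fans belong to the heights
`α t ^ (d + 1) + β t ^ d`; when `(α, β)` moves, the walls are crossed one by one, and the walls of
the sets of `d + 1` nodes which satisfy Gale's evenness condition are flips.
-/

set_option autoImplicit false

open Filter Topology ToricMMP

namespace Pool.Agent.Kept.MP_fa3f7f_ToricTermination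

/-- The maximal number of steps of the minimal model program for divisors on simplicial toric
varieties of dimension `d ≥ 3` with `ρ + d` rays lies between `lowerBound d ρ` and
`upperBound d ρ`, and the quotient of these numbers tends to `1` as `ρ` tends to infinity. -/
theorem result (d : ℕ) (hd : 3 ≤ d) :
    (∀ (ρ : ℕ) (v : Fin (ρ + d) → Fin d → ℝ) (a : Fin (ρ + d) → ℝ) (N : ℕ)
        (T : ℕ → Set (Finset (Fin (ρ + d)))),
      Submodule.span ℝ (Set.range v) = ⊤ → (∀ s ≤ N, IsFan v (T s)) →
      (∀ s < N, IsStep v a (T s) (T (s + 1))) → N ≤ upperBound d ρ) ∧
    (∀ ρ : ℕ, 1 ≤ ρ → ∃ (w : Fin (ρ + d) → Fin d → ℤ) (a : Fin (ρ + d) → ℝ)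
        (T : ℕ → Set (Finset (Fin (ρ + d)))),
      (∀ i, -1 < a i ∧ a i < 0) ∧
      (∀ s ≤ lowerBound d ρ, IsFan (fun i k => (w i k : ℝ)) (T s) ∧
        IsProjective (fun i k => (w i k : ℝ)) (T s) ∧ ∀ i, {i} ∈ T s) ∧
      (∀ s < lowerBound d ρ, IsStep (fun i k => (w i k : ℝ)) a (T s) (T (s + 1)))) ∧
    Tendsto (fun ρ : ℕ => (upperBound d ρ : ℝ) / (lowerBound d ρ : ℝ)) atTop (𝓝 1) := by
  refine ⟨?_, fun ρ hρ => examples d ρ hd hρ, tendsto_ratio d⟩
  intro ρ v a N T hv hT hstep
  have h := ToricMMP.bound hT hstep
  rw [ToricMMP.finrank_rels hv, Module.finrank_fintype_fun_eq_card, Fintype.card_fin,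
    Fintype.card_fin, Nat.add_sub_cancel] at h
  exact h

end Pool.Agent.Kept.MP_fa3f7f_ToricTermination
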