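import Pool.Agent.Lib_helper24.MS.Final1

/-!
# MP_ff1fb3_nt: small points in the field generated by the roots of an algebraic number

For every algebraic number `α`, not a root of unity, and every finite set `S` of primes, the small
points of `M_S = ℚ(μ_∞, α^{1/n} : n ≥ 1 with all prime factors in S)` lie in `⟨α⟩_div`.
-/

namespace Pool.Agent.Kept.MP_ff1fb3_SmoothRoots

open Polynomial

/-- the field of all algebraic numbers -/
abbrev Qbar : Type := AlgebraicClosure ℚ

/-- A primitive polynomial with integer coefficients which is a rational multiple of `f ≠ 0`: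
clear the denominators and divide by the content. -/
noncomputable def primitiveMultiple (f : ℚ[X]) : ℤ[X] :=
  (IsLocalization.integerNormalization (nonZeroDivisors ℤ) f).primPart

/-- The absolute logarithmic Weil height
`h(x) = (1 / [ℚ(x) : ℚ]) log (|lc(P)| ∏_z max(1, |z|))`, where `P` is the minimal polynomial of `x`
over `ℤ` (up to sign) and `z` runs over the complex roots of `P`. -/
noncomputable def weilHeight (x : Qbar) : ℝ :=
  Real.log (|((primitiveMultiple (minpoly ℚ x)).leadingCoeff : ℝ)| *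
    ((((primitiveMultiple (minpoly ℚ x)).map (Int.castRingHom ℂ)).roots).map
      (fun z => max 1 ‖z‖)).prod) / (minpoly ℚ x).natDegree

/-- `M_S = ℚ(μ_∞, α^{1/n} : n ≥ 1 with all prime factors in S)` -/
noncomputable def fieldM (α : Qbar) (S : Set ℕ) : IntermediateField ℚ Qbar :=
  IntermediateField.adjoin ℚ
    ({x | ∃ n : ℕ, 0 < n ∧ x ^ n = 1} ∪
      {x | ∃ n : ℕ, (0 < n ∧ ∀ q : ℕ, q.Prime → q ∣ n → q ∈ S) ∧ x ^ n = α})

/-- `⟨α⟩_div` : the nonzero `γ` with `γ ^ n ∈ ⟨α⟩` for some `n ≥ 1` -/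
def divisionGroup (α : Qbar) : Set Qbar :=
  {γ | γ ≠ 0 ∧ ∃ n : ℕ, 0 < n ∧ ∃ k : ℤ, γ ^ n = α ^ k}

/-- For every algebraic number `α`, not zero and not a root of unity, and every finite set `S` of
primes, the small points of `M_S` lie in `⟨α⟩_div`. -/
theorem result (α : Qbar) (h0 : α ≠ 0) (hα : ∀ n : ℕ, 0 < n → α ^ n ≠ 1) (S : Set ℕ)
    (hS : S.Finite) :
    ∃ c : ℝ, 0 < c ∧ ∀ β ∈ fieldM α S, β ≠ 0 → β ∉ divisionGroup α → c ≤ weilHeight β := by
  have halg : Algebra.IsAlgebraic ℚ Qbar := by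
    refine ⟨fun x => ?_⟩
    obtain ⟨f, hf, hfx⟩ := (AlgebraicClosure.isAlgebraic ℚ).isAlgebraic x
    refine ⟨f, hf, ?_⟩
    rw [aeval_def] at hfx ⊢
    rw [← hfx]
    congr 1
  obtain ⟨c, hc, h⟩ := MS.small_points h0 hα hS.toFinset
  rw [hS.coe_toFinset] at h
  exact ⟨c, hc, h⟩

end Pool.Agent.Kept.MP_ff1fb3_SmoothRoots
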